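import Mathlib

/-!
Reconstruction of a projective hyperplane arrangement from its cell-adjacency graph, for every
dimension at least three.

Outline. Let `G` be the cell-adjacency graph of an arrangement of `n` hyperplanes. Distances in
`G` are `min h (n - h)` where `h` is the number of separating hyperplanes of two lifted cells, so
`n` can be read off from `G`. If two edges of `G` cross the same hyperplane, their ends are
separated by `h` further hyperplanes and `2 (h + 1) < n`, then in every other arrangement with the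
same graph these two edges also cross a common hyperplane. Walls of one hyperplane are linked by
such pairs across every codimension two flat contained in fewer than `n / 2` hyperplanes, and a
hyperplane minus one projective subspace is connected. Hence the partition of the edges into
hyperplane classes is determined, unless some hyperplane contains two codimension two flats of
multiplicity at least `n / 2`; when `d` is at least `3` this happens only for `d = 3` and one
combinatorial type for each even `n`. Finally the sign vectors of the cells determine all sign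
vectors.
-/

set_option autoImplicit false

namespace Pool.Agent.Results.MP_d06cab_co.CellGraph

open Filter Topology

/-- A `d`-arrangement in real projective `d`-space (the lines through the origin of
`ℝ^(d+1)`): a finite family of distinct hyperplanes, given by normal vectors, with no
point common to all of them. -/
structure Arrangement (d : ℕ) where
  n : ℕ
  a : Fin n → (Fin (d + 1) → ℝ)
  ne_zero : ∀ i, a i ≠ 0
  distinct : ∀ i j, i ≠ j → ∀ c : ℝ, a i ≠ c • a j
  no_common_point : ∀ x : Fin (d + 1) → ℝ, (∀ i, dotProduct (a i) x = 0) → x = 0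

namespace Arrangement

variable {d : ℕ} (A : Arrangement d)

/-- The sign vector of a point. -/
noncomputable def signs (x : Fin (d + 1) → ℝ) : Fin A.n → SignType :=
  fun i => SignType.sign (dotProduct (A.a i) x)

/-- The relatively open face of the projective point `x`, as the set of all nonzero vectors
representing its points: those whose sign vector is that of `x` or that of `-x`. -/
def face (x : Fin (d + 1) → ℝ) : Set (Fin (d + 1) → ℝ) :=
  {y | y ≠ 0 ∧ (A.signs y = A.signs x ∨ A.signs y = -A.signs x)}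

/-- The faces of the cell complex of the arrangement. -/
def Face : Type := {F : Set (Fin (d + 1) → ℝ) // ∃ x, x ≠ 0 ∧ F = A.face x}

variable {A} in
/-- The (projective) dimension of a face. -/
noncomputable def Face.dim (F : A.Face) : ℕ :=
  Module.finrank ℝ (Submodule.span ℝ F.1) - 1

/-- Incidence: the face `F` lies in the closure of the face `G`. -/
def InClosure (F G : A.Face) : Prop := F.1 ⊆ closure G.1

/-- The `d`-cells. -/
def Cell : Type := {F : A.Face // F.dim = d}

/-- The cell-adjacency graph: two different `d`-cells are adjacent when some face of dimension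
`d - 1` lies in the closure of both. -/
def cellGraph : SimpleGraph A.Cell where
  Adj C D := C ≠ D ∧ ∃ F : A.Face, F.dim + 1 = d ∧ A.InClosure F C.1 ∧ A.InClosure F D.1
  symm := ⟨fun _ _ ⟨h, F, h1, h2, h3⟩ => ⟨h.symm, F, h1, h3, h2⟩⟩
  loopless := ⟨fun _ h => h.1 rfl⟩

/-- Combinatorial equivalence: a bijection between the faces which preserves incidence in both
directions. -/
def Equivalent (A B : Arrangement d) : Prop :=
  ∃ φ : A.Face ≃ B.Face, ∀ F G : A.Face, A.InClosure F G ↔ B.InClosure (φ F) (φ G)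

end Arrangement

section Geometry

variable {V : Type*} [AddCommGroup V] [Module ℝ V]

/-- Small perturbation of a point: eventual signs of a linear functional. -/
theorem ev_sign (φ : V →ₗ[ℝ] ℝ) (y v : V) :
    ∀ᶠ ε in 𝓝[>] (0 : ℝ),
      SignType.sign (φ (y + ε • v)) =
        if φ y = 0 then SignType.sign (φ v) else SignType.sign (φ y) := by
  have hc : Continuous (fun ε : ℝ => φ y + ε * φ v) := by fun_prop
  have h0 : Tendsto (fun ε : ℝ => φ y + ε * φ v) (𝓝[>] 0) (𝓝 (φ y)) := by
    have := (hc.tendsto 0).mono_left (nhdsWithin_le_nhds (s := Set.Ioi (0:ℝ)))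
    simpa using this
  by_cases h : φ y = 0
  · filter_upwards [self_mem_nhdsWithin] with ε hε
    have hε' : (0 : ℝ) < ε := hε
    simp [h, map_add, map_smul, sign_mul, sign_pos hε']
  · rcases lt_or_gt_of_ne h with hneg | hpos
    · filter_upwards [h0.eventually (gt_mem_nhds hneg)] with ε hε
      rw [if_neg h, sign_neg hneg, map_add, map_smul, smul_eq_mul, sign_neg hε]
    · filter_upwards [h0.eventually (lt_mem_nhds hpos)] with ε hε
      rw [if_neg h, sign_pos hpos, map_add, map_smul, smul_eq_mul, sign_pos hε]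

theorem exists_generic {κ : Type*} [Finite κ] (g : κ → V →ₗ[ℝ] ℝ) (hg : ∀ j, g j ≠ 0) :
    ∃ v : V, ∀ j, g j v ≠ 0 := by
  apply Module.Dual.exists_forall_ne_zero_of_forall_exists
  intro j
  by_contra hcon
  push Not at hcon
  exact hg j (LinearMap.ext (by simpa using hcon))

/-- Perturb a point to become generic for a further finite family without changing the nonzero
signs of a given finite family. -/
theorem exists_perturb {κ μ : Type*} [Finite κ] [Finite μ] (g : κ → V →ₗ[ℝ] ℝ)
    (k : μ → V →ₗ[ℝ] ℝ) (hk : ∀ m, k m ≠ 0) (y : V) :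
    ∃ y' : V, (∀ j, g j y ≠ 0 → SignType.sign (g j y') = SignType.sign (g j y)) ∧
      ∀ m, k m y' ≠ 0 := by
  obtain ⟨v, hv⟩ := exists_generic k hk
  have h1 : ∀ᶠ ε in 𝓝[>] (0 : ℝ), ∀ j, SignType.sign (g j (y + ε • v)) =
        if g j y = 0 then SignType.sign (g j v) else SignType.sign (g j y) := by
    rw [eventually_all]
    intro j
    exact ev_sign (g j) y v
  have h2 : ∀ᶠ ε in 𝓝[>] (0 : ℝ), ∀ m, SignType.sign (k m (y + ε • v)) =
        if k m y = 0 then SignType.sign (k m v) else SignType.sign (k m y) := by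
    rw [eventually_all]
    intro m
    exact ev_sign (k m) y v
  obtain ⟨ε, hε1, hε2⟩ := (h1.and h2).exists
  refine ⟨y + ε • v, ?_, ?_⟩
  · intro j hj
    rw [hε1 j, if_neg hj]
  · intro m
    have := hε2 m
    by_cases hm : k m y = 0
    · rw [if_pos hm] at this
      intro h0
      rw [h0, sign_zero, eq_comm, sign_eq_zero_iff] at this
      exact hv m this
    · rw [if_neg hm] at this
      intro h0
      rw [h0, sign_zero, eq_comm, sign_eq_zero_iff] at this
      exact hm this

/-- The gallery step. -/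
theorem gallery_step {κ : Type*} [Finite κ] (g : κ → V →ₗ[ℝ] ℝ) {x y : V}
    (hx : ∀ j, g j x ≠ 0) (hy : ∀ j, g j y ≠ 0) (j0 : κ) (hj0 : g j0 x * g j0 y < 0) :
    ∃ z : V, (∀ j, g j z ≠ 0) ∧ ∃ j, g j x * g j y < 0 ∧
      ∀ l, (g l x * g l z < 0 ↔ ∃ c : ℝ, g l = c • g j) := by
  classical
  have := Fintype.ofFinite κ
  -- perturb y
  obtain ⟨y', hy1, hy2⟩ := exists_perturb g
    (fun p : {p : κ × κ // g p.1 x • g p.2 - g p.2 x • g p.1 ≠ 0} =>
      g p.1.1 x • g p.1.2 - g p.1.2 x • g p.1.1) (fun p => p.2) y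
  have hy' : ∀ j, g j y' ≠ 0 := by
    intro j h0
    have := hy1 j (hy j)
    rw [h0, sign_zero, eq_comm, sign_eq_zero_iff] at this
    exact hy j this
  have hs : ∀ j, (g j x * g j y' < 0 ↔ g j x * g j y < 0) := by
    intro j
    have h1 : SignType.sign (g j x * g j y') = SignType.sign (g j x * g j y) := by
      rw [sign_mul, sign_mul, hy1 j (hy j)]
    rw [← sign_eq_neg_one_iff, h1, sign_eq_neg_one_iff]
  -- crossing times
  set t : κ → ℝ := fun l => g l x / (g l x - g l y') with ht
  have hden : ∀ l, g l x * g l y' < 0 → g l x - g l y' ≠ 0 := by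
    intro l hl h0
    have : g l x = g l y' := by linarith
    rw [this] at hl
    nlinarith [mul_self_nonneg (g l y')]
  obtain ⟨j, hjS, hjmin⟩ : ∃ j ∈ Finset.univ.filter (fun l => g l x * g l y' < 0),
      ∀ l ∈ Finset.univ.filter (fun l => g l x * g l y' < 0), t j ≤ t l := by
    apply Finset.exists_min_image
    exact ⟨j0, by simp [(hs j0).2 hj0]⟩
  have hj : g j x * g j y' < 0 := by simpa using hjS
  have hjm : ∀ l, g l x * g l y' < 0 → t j ≤ t l := fun l hl => hjmin l (by simpa using hl)
  have htj : t j * (g j x - g j y') = g j x := by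
    rw [ht]; field_simp [hden j hj]
  have htj0 : 0 < t j ∧ t j < 1 := by
    have hd := hden j hj
    rcases lt_or_gt_of_ne (hx j) with h | h
    · have h2 : 0 < g j y' := by
        by_contra hcon; push Not at hcon
        nlinarith [mul_nonneg_of_nonpos_of_nonpos h.le hcon]
      constructor
      · exact div_pos_of_neg_of_neg h (by linarith)
      · rw [ht]; simp only
        rw [div_lt_one_of_neg (by linarith)]; linarith
    · have h2 : g j y' < 0 := by
        by_contra hcon; push Not at hcon
        nlinarith [mul_nonneg h.le hcon]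
      constructor
      · exact div_pos h (by linarith)
      · rw [ht]; simp only
        rw [div_lt_one (by linarith)]; linarith
  set m : V := x + t j • (y' - x) with hm
  have hgm : ∀ l, g l m = g l x - t j * (g l x - g l y') := by
    intro l
    simp only [hm, map_add, map_smul, map_sub, smul_eq_mul]; ring
  have hev : ∀ᶠ ε in 𝓝[>] (0 : ℝ), ∀ l, SignType.sign (g l (m + ε • (y' - x))) =
        if g l m = 0 then SignType.sign (g l (y' - x)) else SignType.sign (g l m) := by
    rw [eventually_all]
    intro l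
    exact ev_sign (g l) m (y' - x)
  obtain ⟨ε, hε⟩ := hev.exists
  -- parallel iff zero at m
  have hpar : ∀ l, (∃ c : ℝ, g l = c • g j) → g l m = 0 := by
    rintro l ⟨c, hc⟩
    rw [hgm l, hc]
    simp only [LinearMap.smul_apply, smul_eq_mul]
    have : c * g j x - t j * (c * g j x - c * g j y') = c * (g j x - t j * (g j x - g j y')) := by
      ring
    rw [this, htj]; ring
  have hpar2 : ∀ l, g l m = 0 → ∃ c : ℝ, g l = c • g j := by
    intro l hl
    by_contra hcon
    have hne : g j x • g l - g l x • g j ≠ 0 := by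
      intro h0
      apply hcon
      refine ⟨g l x / g j x, ?_⟩
      have h1 : g j x • g l = g l x • g j := sub_eq_zero.mp h0
      rw [div_eq_inv_mul, mul_smul, ← h1, smul_smul, inv_mul_cancel₀ (hx j), one_smul]
    have h3 := hy2 ⟨(j, l), hne⟩
    apply h3
    simp only [LinearMap.sub_apply, LinearMap.smul_apply, smul_eq_mul]
    rw [hgm l] at hl
    have h4 : g l x * (g j x - g j y') = g j x * (g l x - g l y') := by
      have h5 : g l x = t j * (g l x - g l y') := by linarith
      calc g l x * (g j x - g j y') = (t j * (g l x - g l y')) * (g j x - g j y') := by rw [← h5]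
        _ = (t j * (g j x - g j y')) * (g l x - g l y') := by ring
        _ = g j x * (g l x - g l y') := by rw [htj]
    linarith
  refine ⟨m + ε • (y' - x), ?_, j, (hs j).1 hj, ?_⟩
  · intro l h0
    have h1 := hε l
    rw [h0, sign_zero] at h1
    by_cases hl : g l m = 0
    · rw [if_pos hl, eq_comm, sign_eq_zero_iff, map_sub] at h1
      have h2 : g l m = g l x := by rw [hgm l]; rw [show g l x - g l y' = 0 by linarith]; ring
      exact hx l (by rw [← h2, hl])
    · rw [if_neg hl, eq_comm, sign_eq_zero_iff] at h1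
      exact hl h1
  · intro l
    constructor
    · intro hneg
      apply hpar2
      by_contra hl
      have h1 := hε l
      rw [if_neg hl] at h1
      -- sign of g l z = sign g l m; need product with g l x positive
      have h2 : SignType.sign (g l x * g l m) = -1 := by
        rw [sign_mul, ← h1, ← sign_mul, sign_eq_neg_one_iff]; exact hneg
      rw [sign_eq_neg_one_iff] at h2
      by_cases hlS : g l x * g l y' < 0
      · have h3 := hjm l hlS
        have h4 : t l * (g l x - g l y') = g l x := by
          rw [ht]; field_simp [hden l hlS]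
        have h5 : g l m = (t l - t j) * (g l x - g l y') := by rw [hgm l, sub_mul, h4]
        have h6 : 0 ≤ g l x * g l m := by
          rw [h5]
          have h7 : 0 ≤ g l x * (g l x - g l y') := by nlinarith [mul_self_nonneg (g l x)]
          have h8 : 0 ≤ t l - t j := by linarith
          nlinarith [mul_nonneg h8 h7]
        linarith
      · push Not at hlS
        have h6 : 0 ≤ g l x * g l m := by
          rw [hgm l]
          have : g l x * (g l x - t j * (g l x - g l y')) =
            (1 - t j) * (g l x * g l x) + t j * (g l x * g l y') := by ring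
          rw [this]
          have := mul_self_nonneg (g l x)
          nlinarith [mul_nonneg (by linarith [htj0.2] : (0:ℝ) ≤ 1 - t j) this,
            mul_nonneg htj0.1.le hlS]
        linarith
    · intro hp
      have hl := hpar l hp
      have h1 := hε l
      rw [if_pos hl] at h1
      obtain ⟨c, hc⟩ := hp
      have h2 : g l x * g l y' < 0 := by
        have hc0 : c ≠ 0 := by
          rintro rfl
          apply hx l
          rw [hc]; simp
        rw [hc]
        simp only [LinearMap.smul_apply, smul_eq_mul]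
        have : c * g j x * (c * g j y') = (c * c) * (g j x * g j y') := by ring
        rw [this]
        exact mul_neg_of_pos_of_neg (mul_self_pos.mpr hc0) hj
      rw [← sign_eq_neg_one_iff, sign_mul, h1, ← sign_mul, sign_eq_neg_one_iff, map_sub]
      nlinarith [mul_self_nonneg (g l x)]

end Geometry

section GeometryTwo

variable {V : Type*} [AddCommGroup V] [Module ℝ V]

theorem sign_comb {a b p q : ℝ} (ha : 0 < a) (hb : 0 < b)
    (h : SignType.sign p = SignType.sign q) :
    SignType.sign (a * p + b * q) = SignType.sign p := by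
  rcases lt_trichotomy p 0 with hp | hp | hp
  · rw [sign_neg hp] at h ⊢
    have hq : q < 0 := by rw [← sign_eq_neg_one_iff, ← h]
    rw [sign_eq_neg_one_iff]
    nlinarith [mul_neg_of_pos_of_neg ha hp, mul_neg_of_pos_of_neg hb hq]
  · subst hp
    rw [sign_zero, eq_comm, sign_eq_zero_iff] at h
    subst h
    simp
  · rw [sign_pos hp] at h ⊢
    have hq : 0 < q := by rw [← sign_eq_one_iff, ← h]
    rw [sign_eq_one_iff]
    nlinarith [mul_pos ha hp, mul_pos hb hq]

theorem covector_aux {ι : Type*} [Fintype ι] (f : ι → V →ₗ[ℝ] ℝ) (X : ι → SignType) :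
    ∀ (n : ℕ) (W : Submodule ℝ V),
      {i | X i = 0 ∧ ¬ W ≤ LinearMap.ker (f i)}.ncard = n →
      (∀ y ∈ W, (∀ i, ¬ W ≤ LinearMap.ker (f i) → f i y ≠ 0) →
        ∃ y' ∈ W, ∀ i, SignType.sign (f i y') =
          if X i = 0 then SignType.sign (f i y) else X i) →
      ∃ x ∈ W, ∀ i, SignType.sign (f i x) = X i := by
  intro n
  induction n using Nat.strong_induction_on with
  | _ n ih =>
    intro W hn hW
    by_cases hZ : ∃ i, X i = 0 ∧ ¬ W ≤ LinearMap.ker (f i)
    · obtain ⟨i, hXi, hi⟩ := hZ
      obtain ⟨w, hwW, hwi⟩ : ∃ w ∈ W, 0 < f i w := by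
        obtain ⟨w, hw, hw2⟩ := SetLike.not_le_iff_exists.mp hi
        rw [LinearMap.mem_ker] at hw2
        rcases lt_or_gt_of_ne hw2 with h | h
        · exact ⟨-w, W.neg_mem hw, by rw [map_neg]; linarith⟩
        · exact ⟨w, hw, h⟩
      set W' : Submodule ℝ V := W ⊓ LinearMap.ker (f i) with hW'
      have hlt : {j | X j = 0 ∧ ¬ W' ≤ LinearMap.ker (f j)}.ncard < n := by
        rw [← hn]
        apply Set.ncard_lt_ncard _ (Set.toFinite _)
        refine ⟨?_, ?_⟩
        · rintro j ⟨h1, h2⟩
          exact ⟨h1, fun h => h2 (inf_le_left.trans h)⟩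
        · intro hsub
          have : i ∈ {j | X j = 0 ∧ ¬ W' ≤ LinearMap.ker (f j)} := hsub ⟨hXi, hi⟩
          exact this.2 inf_le_right
      obtain ⟨x, hx, hx2⟩ := ih _ hlt W' rfl (by
        intro y hy hgen
        have hyW : y ∈ W := hy.1
        have hyi : f i y = 0 := hy.2
        have hev : ∀ᶠ ε in 𝓝[>] (0 : ℝ),
            (∀ j, SignType.sign (f j (y + ε • w)) =
              if f j y = 0 then SignType.sign (f j w) else SignType.sign (f j y)) ∧
            (∀ j, SignType.sign (f j (y + ε • (-w))) =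
              if f j y = 0 then SignType.sign (f j (-w)) else SignType.sign (f j y)) := by
          rw [eventually_and, eventually_all, eventually_all]
          exact ⟨fun j => ev_sign (f j) y w, fun j => ev_sign (f j) y (-w)⟩
        obtain ⟨ε, hε1, hε2⟩ := hev.exists
        -- vanishing on W'
        have hvan : ∀ j, f j y = 0 → ¬ W ≤ LinearMap.ker (f j) → f j w ≠ 0 := by
          intro j hj hjW h0
          have hle : W' ≤ LinearMap.ker (f j) := by
            by_contra hcon
            exact hgen j hcon hj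
          apply hjW
          intro u hu
          rw [LinearMap.mem_ker]
          have hmem : u - (f i u / f i w) • w ∈ W' := by
            refine ⟨W.sub_mem hu (W.smul_mem _ hwW), ?_⟩
            rw [SetLike.mem_coe, LinearMap.mem_ker, map_sub, map_smul, smul_eq_mul]
            field_simp
            ring
          have h1 := hle hmem
          rw [LinearMap.mem_ker, map_sub, map_smul, h0, smul_zero, sub_zero] at h1
          exact h1
        obtain ⟨yp, hypW, hyp⟩ := hW (y + ε • w) (W.add_mem hyW (W.smul_mem _ hwW)) (by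
          intro j hj h0
          have h1 := hε1 j
          rw [h0, sign_zero] at h1
          by_cases hjy : f j y = 0
          · rw [if_pos hjy, eq_comm, sign_eq_zero_iff] at h1
            exact hvan j hjy hj h1
          · rw [if_neg hjy, eq_comm, sign_eq_zero_iff] at h1
            exact hjy h1)
        obtain ⟨ym, hymW, hym⟩ := hW (y + ε • (-w))
          (W.add_mem hyW (W.smul_mem _ (W.neg_mem hwW))) (by
          intro j hj h0
          have h1 := hε2 j
          rw [h0, sign_zero] at h1
          by_cases hjy : f j y = 0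
          · rw [if_pos hjy, eq_comm, sign_eq_zero_iff, map_neg, neg_eq_zero] at h1
            exact hvan j hjy hj h1
          · rw [if_neg hjy, eq_comm, sign_eq_zero_iff] at h1
            exact hjy h1)
        have hpi : 0 < f i yp := by
          rw [← sign_eq_one_iff, hyp i, if_pos hXi, hε1 i, if_pos hyi, sign_eq_one_iff]
          exact hwi
        have hmi : f i ym < 0 := by
          rw [← sign_eq_neg_one_iff, hym i, if_pos hXi, hε2 i, if_pos hyi,
            sign_eq_neg_one_iff, map_neg]
          linarith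
        refine ⟨(-(f i ym)) • yp + (f i yp) • ym, ⟨?_, ?_⟩, ?_⟩
        · exact W.add_mem (W.smul_mem _ hypW) (W.smul_mem _ hymW)
        · rw [SetLike.mem_coe, LinearMap.mem_ker, map_add, map_smul, map_smul]
          simp only [smul_eq_mul]; ring
        · intro j
          have hz : f j ((-(f i ym)) • yp + (f i yp) • ym) =
              (-(f i ym)) * f j yp + (f i yp) * f j ym := by
            rw [map_add, map_smul, map_smul]; rfl
          by_cases hXj : X j = 0
          · rw [if_pos hXj]
            by_cases hjy : f j y = 0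
            · have hle : W' ≤ LinearMap.ker (f j) := by
                by_contra hcon
                exact hgen j hcon hjy
              have hmem : (-(f i ym)) • yp + (f i yp) • ym ∈ W' := by
                refine ⟨W.add_mem (W.smul_mem _ hypW) (W.smul_mem _ hymW), ?_⟩
                rw [SetLike.mem_coe, LinearMap.mem_ker, map_add, map_smul, map_smul]
                simp only [smul_eq_mul]; ring
              have := hle hmem
              rw [LinearMap.mem_ker] at this
              rw [this, hjy]
            · rw [hz]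
              have h1 := hyp j
              have h2 := hym j
              rw [if_pos hXj, hε1 j, if_neg hjy] at h1
              rw [if_pos hXj, hε2 j, if_neg hjy] at h2
              rw [sign_comb (by linarith) hpi (h1.trans h2.symm), h1]
          · rw [if_neg hXj, hz]
            have h1 := hyp j
            have h2 := hym j
            rw [if_neg hXj] at h1 h2
            rw [sign_comb (by linarith) hpi (h1.trans h2.symm), h1])
      exact ⟨x, hx.1, hx2⟩
    · push Not at hZ
      -- take a generic point of W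
      obtain ⟨y, hyW, hy⟩ : ∃ y ∈ W, ∀ i, ¬ W ≤ LinearMap.ker (f i) → f i y ≠ 0 := by
        obtain ⟨y, hyW, hy⟩ := Module.Dual.exists_forall_mem_ne_zero_of_forall_exists W
          (fun j : {j // ¬ W ≤ LinearMap.ker (f j)} => f j.1) (by
            rintro ⟨j, hj⟩
            obtain ⟨w, hw, hw2⟩ := SetLike.not_le_iff_exists.mp hj
            exact ⟨w, hw, by rwa [LinearMap.mem_ker] at hw2⟩)
        exact ⟨y, hyW, fun i hi => hy ⟨i, hi⟩⟩
      obtain ⟨y', hy'W, hy'⟩ := hW y hyW hy
      refine ⟨y', hy'W, fun i => ?_⟩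
      by_cases hXi : X i = 0
      · have := hZ i hXi hy'W
        rw [LinearMap.mem_ker] at this
        rw [this, hXi, sign_zero]
      · rw [hy' i, if_neg hXi]

/-- A sign vector is realised as soon as its composition with every full sign vector is. -/
theorem covector_of_compositions {ι : Type*} [Fintype ι] (f : ι → V →ₗ[ℝ] ℝ)
    (hf : ∀ i, f i ≠ 0) (X : ι → SignType)
    (h : ∀ y, (∀ i, f i y ≠ 0) → ∃ y', ∀ i, SignType.sign (f i y') =
          if X i = 0 then SignType.sign (f i y) else X i) :
    ∃ x, ∀ i, SignType.sign (f i x) = X i := by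
  obtain ⟨x, -, hx⟩ := covector_aux f X _ ⊤ rfl (by
    intro y _ hy
    obtain ⟨y', hy'⟩ := h y (fun i => hy i (by
      intro hle
      apply hf i
      ext v
      have := hle (Submodule.mem_top (x := v))
      simpa using this))
    exact ⟨y', Submodule.mem_top, hy'⟩)
  exact ⟨x, hx⟩

end GeometryTwo

section Comb

open Finset

section Model

/-- Combinatorial data extracted from an arrangement: the set of full sign vectors (coded by the
set of negative coordinates), and the graph of the quotient by negation. -/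
structure Model {X : Type*} (G : SimpleGraph X) (ι : Type*) [Fintype ι] [DecidableEq ι] where
  T : Set (Finset ι)
  c : Finset ι → X
  compl_mem : ∀ N ∈ T, Nᶜ ∈ T
  surj : ∀ x : X, ∃ N ∈ T, c N = x
  eq_iff : ∀ N ∈ T, ∀ M ∈ T, (c N = c M ↔ N = M ∨ N = Mᶜ)
  adj_iff : ∀ N ∈ T, ∀ M ∈ T,
    (G.Adj (c N) (c M) ↔ (symmDiff N M).card = 1 ∨ (symmDiff N M).card + 1 = Fintype.card ι)
  step : ∀ N ∈ T, ∀ M ∈ T, N ≠ M → ∃ i ∈ symmDiff N M, symmDiff N {i} ∈ T
  three_le : 3 ≤ Fintype.card ι
  nonempty : T.Nonempty

variable {X : Type*} {G : SimpleGraph X} {ι : Type*} [Fintype ι] [DecidableEq ι]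

theorem card_symmDiff_compl (N M : Finset ι) :
    (symmDiff N Mᶜ).card + (symmDiff N M).card = Fintype.card ι := by
  have h : symmDiff N Mᶜ = (symmDiff N M)ᶜ := by
    ext i
    simp only [mem_symmDiff, mem_compl]
    tauto
  rw [h, card_compl]
  have := card_le_univ (symmDiff N M)
  omega

theorem compl_symmDiff_left (N M : Finset ι) : symmDiff Nᶜ M = (symmDiff N M)ᶜ := by
  ext i
  simp only [mem_symmDiff, mem_compl]
  tauto

theorem compl_symmDiff_right (N M : Finset ι) : symmDiff N Mᶜ = (symmDiff N M)ᶜ := by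
  ext i
  simp only [mem_symmDiff, mem_compl]
  tauto

omit [Fintype ι] in
theorem card_symmDiff_triangle (A B C : Finset ι) :
    (symmDiff A C).card ≤ (symmDiff A B).card + (symmDiff B C).card := by
  calc (symmDiff A C).card ≤ (symmDiff A B ∪ symmDiff B C).card := by
        apply card_le_card
        intro i
        simp only [mem_symmDiff, mem_union]
        tauto
    _ ≤ _ := card_union_le _ _

omit [Fintype ι] in
theorem symmDiff_singleton_symmDiff (N : Finset ι) (i : ι) :
    symmDiff (symmDiff N {i}) {i} = N := by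
  rw [symmDiff_assoc, symmDiff_self, symmDiff_bot]

omit [Fintype ι] in
theorem flip_left_notMem {P Q : Finset ι} {i : ι} (hi : i ∉ symmDiff P Q) :
    (symmDiff (symmDiff P {i}) Q).card = (symmDiff P Q).card + 1 := by
  have : symmDiff (symmDiff P {i}) Q = insert i (symmDiff P Q) := by
    ext j
    simp only [mem_symmDiff, mem_singleton, mem_insert] at hi ⊢
    by_cases hj : j = i
    · subst hj; tauto
    · tauto
  rw [this, card_insert_of_notMem hi]

omit [Fintype ι] in
theorem flip_left_mem {P Q : Finset ι} {i : ι} (hi : i ∈ symmDiff P Q) :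
    (symmDiff (symmDiff P {i}) Q).card + 1 = (symmDiff P Q).card := by
  have : symmDiff (symmDiff P {i}) Q = (symmDiff P Q).erase i := by
    ext j
    simp only [mem_symmDiff, mem_singleton, mem_erase] at hi ⊢
    by_cases hj : j = i
    · subst hj; tauto
    · tauto
  rw [this, card_erase_add_one hi]

omit [Fintype ι] in
theorem flip_right_notMem {P Q : Finset ι} {i : ι} (hi : i ∉ symmDiff P Q) :
    (symmDiff P (symmDiff Q {i})).card = (symmDiff P Q).card + 1 := by
  rw [symmDiff_comm P, symmDiff_comm P] at *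
  exact flip_left_notMem hi

omit [Fintype ι] in
theorem flip_right_mem {P Q : Finset ι} {i : ι} (hi : i ∈ symmDiff P Q) :
    (symmDiff P (symmDiff Q {i})).card + 1 = (symmDiff P Q).card := by
  rw [symmDiff_comm P, symmDiff_comm P] at *
  exact flip_left_mem hi

omit [Fintype ι] in
theorem flip_both {P Q : Finset ι} (i : ι) :
    symmDiff (symmDiff P {i}) (symmDiff Q {i}) = symmDiff P Q := by
  ext j
  simp only [mem_symmDiff, mem_singleton]
  tauto

omit [Fintype ι] in
theorem flip_two {P Q : Finset ι} {i j : ι} (hi : i ∉ symmDiff P Q) (hj : j ∉ symmDiff P Q)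
    (hij : i ≠ j) :
    (symmDiff (symmDiff P {i}) (symmDiff Q {j})).card = (symmDiff P Q).card + 2 := by
  rw [flip_right_notMem, flip_left_notMem hi]
  simp only [mem_symmDiff, mem_singleton] at hi hj ⊢
  have : j ≠ i := hij.symm
  tauto

namespace Model

variable (m : Model G ι)

include m in
theorem c_compl {N : Finset ι} (hN : N ∈ m.T) : m.c Nᶜ = m.c N := by
  rw [m.eq_iff _ (m.compl_mem N hN) _ hN]
  right; rfl

theorem adj_singleton {N : Finset ι} {i : ι} (hN : N ∈ m.T) (hN' : symmDiff N {i} ∈ m.T) :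
    G.Adj (m.c N) (m.c (symmDiff N {i})) := by
  rw [m.adj_iff _ hN _ hN']
  left
  rw [← symmDiff_assoc, symmDiff_self, bot_symmDiff, card_singleton]

/-- walks of length the Hamming distance -/
theorem exists_walk (k : ℕ) : ∀ N ∈ m.T, ∀ M ∈ m.T, (symmDiff N M).card = k →
    ∃ p : G.Walk (m.c N) (m.c M), p.length = k := by
  induction k with
  | zero =>
    intro N hN M hM h
    rw [card_eq_zero] at h
    have : N = M := symmDiff_eq_bot.mp h
    subst this
    exact ⟨SimpleGraph.Walk.nil, rfl⟩
  | succ k ih =>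
    intro N hN M hM h
    have hne : N ≠ M := by
      rintro rfl
      simp at h
    obtain ⟨i, hi, hi'⟩ := m.step N hN M hM hne
    have hcard : (symmDiff (symmDiff N {i}) M).card = k := by
      have : symmDiff (symmDiff N {i}) M = (symmDiff N M).erase i := by
        ext j
        simp only [mem_symmDiff, mem_singleton, mem_erase] at hi ⊢
        by_cases hj : j = i
        · subst hj; tauto
        · tauto
      rw [this, card_erase_of_mem hi, h]; rfl
    obtain ⟨p, hp⟩ := ih _ hi' M hM hcard
    exact ⟨SimpleGraph.Walk.cons (m.adj_singleton hN hi') p, by simp [hp]⟩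

theorem walk_lower {u v : X} (p : G.Walk u v) : ∀ N ∈ m.T, m.c N = u →
    ∃ M ∈ m.T, m.c M = v ∧ (symmDiff N M).card ≤ p.length := by
  induction p with
  | nil =>
    intro N hN h
    exact ⟨N, hN, h, by simp⟩
  | @cons u w v hadj p ih =>
    intro N hN h
    obtain ⟨K, hK, hKc⟩ := m.surj w
    obtain ⟨K', hK', hKc', hcard⟩ : ∃ K' ∈ m.T, m.c K' = w ∧ (symmDiff N K').card = 1 := by
      subst h
      rw [← hKc, m.adj_iff _ hN _ hK] at hadj
      rcases hadj with h1 | h1
      · exact ⟨K, hK, hKc, h1⟩
      · refine ⟨Kᶜ, m.compl_mem _ hK, (m.c_compl hK).trans hKc, ?_⟩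
        have := card_symmDiff_compl N K
        omega
    obtain ⟨M, hM, hMc, hle⟩ := ih K' hK' hKc'
    refine ⟨M, hM, hMc, ?_⟩
    have := card_symmDiff_triangle N K' M
    simp only [SimpleGraph.Walk.length_cons]
    omega

theorem dist_eq {N M : Finset ι} (hN : N ∈ m.T) (hM : M ∈ m.T) :
    G.dist (m.c N) (m.c M) = min (symmDiff N M).card (Fintype.card ι - (symmDiff N M).card) := by
  apply le_antisymm
  · apply le_min
    · obtain ⟨p, hp⟩ := m.exists_walk _ N hN M hM rfl
      rw [← hp]
      exact SimpleGraph.dist_le p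
    · obtain ⟨p, hp⟩ := m.exists_walk _ N hN Mᶜ (m.compl_mem _ hM) rfl
      have h1 := card_symmDiff_compl N M
      have h2 : G.dist (m.c N) (m.c Mᶜ) ≤ (symmDiff N Mᶜ).card := by
        rw [← hp]; exact SimpleGraph.dist_le p
      rw [m.c_compl hM] at h2
      omega
  · obtain ⟨p, hp⟩ := m.exists_walk _ N hN M hM rfl
    have hr : G.Reachable (m.c N) (m.c M) := ⟨p⟩
    obtain ⟨q, hq⟩ := hr.exists_walk_length_eq_dist
    obtain ⟨M', hM', hMc, hle⟩ := m.walk_lower q N hN rfl
    rw [hq] at hle
    rw [m.eq_iff _ hM' _ hM] at hMc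
    rcases hMc with rfl | rfl
    · exact (min_le_left _ _).trans hle
    · refine (min_le_right _ _).trans ?_
      have h1 := card_symmDiff_compl N M
      omega

/-- for adjacent vertices one can choose representatives at Hamming distance one -/
theorem exists_rep_adj {N : Finset ι} (hN : N ∈ m.T) {y : X} (h : G.Adj (m.c N) y) :
    ∃ i, symmDiff N {i} ∈ m.T ∧ m.c (symmDiff N {i}) = y := by
  obtain ⟨K, hK, rfl⟩ := m.surj y
  obtain ⟨K', hK', hKc', hcard⟩ : ∃ K' ∈ m.T, m.c K' = m.c K ∧ (symmDiff N K').card = 1 := by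
    rw [m.adj_iff _ hN _ hK] at h
    rcases h with h1 | h1
    · exact ⟨K, hK, rfl, h1⟩
    · refine ⟨Kᶜ, m.compl_mem _ hK, m.c_compl hK, ?_⟩
      have := card_symmDiff_compl N K
      omega
  rw [card_eq_one] at hcard
  obtain ⟨i, hi⟩ := hcard
  have : K' = symmDiff N {i} := by
    rw [← hi, ← symmDiff_assoc, symmDiff_self, bot_symmDiff]
  exact ⟨i, this ▸ hK', by rw [← this, hKc']⟩

/-- The class of an edge. -/
def Cross (x y : X) (i : ι) : Prop :=
  ∃ N ∈ m.T, symmDiff N {i} ∈ m.T ∧ m.c N = x ∧ m.c (symmDiff N {i}) = y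

theorem Cross.symm {x y : X} {i : ι} (h : m.Cross x y i) : m.Cross y x i := by
  obtain ⟨N, hN, hN', rfl, rfl⟩ := h
  exact ⟨symmDiff N {i}, hN', by rwa [symmDiff_singleton_symmDiff], rfl,
    by rw [symmDiff_singleton_symmDiff]⟩

theorem exists_cross {x y : X} (h : G.Adj x y) : ∃ i, m.Cross x y i := by
  obtain ⟨N, hN, rfl⟩ := m.surj x
  obtain ⟨i, hi, hi'⟩ := m.exists_rep_adj hN h
  exact ⟨i, N, hN, hi, rfl, hi'⟩

theorem Cross.adj {x y : X} {i : ι} (h : m.Cross x y i) : G.Adj x y := by
  obtain ⟨N, hN, hN', rfl, rfl⟩ := h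
  exact m.adj_singleton hN hN'

/-- From any representative of the first end one crosses the same class. -/
theorem Cross.rep {x y : X} {i : ι} (h : m.Cross x y i) {N : Finset ι} (hN : N ∈ m.T)
    (hNx : m.c N = x) : symmDiff N {i} ∈ m.T ∧ m.c (symmDiff N {i}) = y := by
  obtain ⟨N', hN', hN'', rfl, rfl⟩ := h
  rw [m.eq_iff _ hN _ hN'] at hNx
  rcases hNx with rfl | rfl
  · exact ⟨hN'', rfl⟩
  · have : symmDiff N'ᶜ {i} = (symmDiff N' {i})ᶜ := compl_symmDiff_left _ _
    rw [this]
    exact ⟨m.compl_mem _ hN'', m.c_compl hN''⟩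

theorem Cross.unique {x y : X} {i j : ι} (h : m.Cross x y i) (h' : m.Cross x y j) : i = j := by
  obtain ⟨N, hN, hN', rfl, rfl⟩ := h
  obtain ⟨h1, h2⟩ := h'.rep m hN rfl
  rw [m.eq_iff _ h1 _ hN'] at h2
  have h3 : 3 ≤ Fintype.card ι := m.three_le
  rcases h2 with h2 | h2
  · have : ({j} : Finset ι) = {i} := symmDiff_right_injective N h2
    exact (singleton_injective this).symm
  · exfalso
    have h4 : ({j} : Finset ι) = ({i} : Finset ι)ᶜ := by
      apply symmDiff_right_injective N
      change symmDiff N {j} = symmDiff N ({i}ᶜ)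
      rw [h2, ← compl_symmDiff_right]
    have h5 := congrArg Finset.card h4
    rw [card_compl, card_singleton, card_singleton] at h5
    omega

/-- Intermediate sign vectors on a geodesic. -/
theorem exists_between {N M : Finset ι} (hN : N ∈ m.T) (hM : M ∈ m.T) (k : ℕ)
    (hk : k ≤ (symmDiff N M).card) :
    ∃ K ∈ m.T, (symmDiff N K).card = k ∧ (symmDiff K M).card + k = (symmDiff N M).card := by
  induction k with
  | zero => exact ⟨N, hN, by simp, by simp⟩
  | succ k ih =>
    obtain ⟨K, hK, h1, h2⟩ := ih (by omega)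
    have hne : K ≠ M := by
      rintro rfl
      simp at h2
      omega
    obtain ⟨i, hi, hi'⟩ := m.step K hK M hM hne
    have h3 := flip_left_mem hi
    have h4 := card_symmDiff_triangle N (symmDiff K {i}) M
    have h5 := card_symmDiff_triangle N K (symmDiff K {i})
    have h6 : (symmDiff K (symmDiff K {i})).card = 1 := by
      rw [← symmDiff_assoc, symmDiff_self, bot_symmDiff, card_singleton]
    exact ⟨symmDiff K {i}, hi', by omega, by omega⟩

theorem card_symmDiff_self_compl (N : Finset ι) : (symmDiff N Nᶜ).card = Fintype.card ι := by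
  have := card_symmDiff_compl N N
  rw [symmDiff_self] at this
  simpa only [Finset.bot_eq_empty, card_empty, add_zero] using this

include m in
theorem dist_le_half (x y : X) : G.dist x y ≤ Fintype.card ι / 2 := by
  obtain ⟨N, hN, rfl⟩ := m.surj x
  obtain ⟨M, hM, rfl⟩ := m.surj y
  rw [m.dist_eq hN hM]
  omega

include m in
theorem exists_dist_half : ∃ x y, G.dist x y = Fintype.card ι / 2 := by
  obtain ⟨N, hN⟩ := m.nonempty
  obtain ⟨K, hK, h1, -⟩ := m.exists_between hN (m.compl_mem N hN) (Fintype.card ι / 2)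
    (by rw [card_symmDiff_self_compl]; omega)
  refine ⟨m.c N, m.c K, ?_⟩
  rw [m.dist_eq hN hK, h1]
  omega

include m in
theorem odd_iff : Fintype.card ι % 2 = 1 ↔ ∃ x y z, G.Adj y z ∧ G.dist x y = G.dist x z := by
  constructor
  · intro hodd
    obtain ⟨N, hN⟩ := m.nonempty
    obtain ⟨K, hK, h1, h2⟩ := m.exists_between hN (m.compl_mem N hN) (Fintype.card ι / 2)
      (by rw [card_symmDiff_self_compl]; omega)
    rw [card_symmDiff_self_compl] at h2
    have hne : K ≠ Nᶜ := by
      rintro rfl
      simp at h2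
      omega
    obtain ⟨i, hi, hi'⟩ := m.step K hK _ (m.compl_mem N hN) hne
    have h3 := flip_left_mem hi
    have h4 := card_symmDiff_triangle N (symmDiff K {i}) Nᶜ
    rw [card_symmDiff_self_compl] at h4
    have h5 := card_symmDiff_triangle N K (symmDiff K {i})
    have h6 : (symmDiff K (symmDiff K {i})).card = 1 := by
      rw [← symmDiff_assoc, symmDiff_self, bot_symmDiff, card_singleton]
    refine ⟨m.c N, m.c K, m.c (symmDiff K {i}), m.adj_singleton hK hi', ?_⟩
    rw [m.dist_eq hN hK, m.dist_eq hN hi', h1]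
    omega
  · rintro ⟨x, y, z, hadj, hd⟩
    obtain ⟨N, hN, rfl⟩ := m.surj x
    obtain ⟨K, hK, rfl⟩ := m.surj y
    obtain ⟨i, hi, rfl⟩ := m.exists_rep_adj hK hadj
    rw [m.dist_eq hN hK, m.dist_eq hN hi] at hd
    have h7 := card_le_univ (symmDiff N K)
    have h8 := card_le_univ (symmDiff N (symmDiff K {i}))
    by_cases hmem : i ∈ symmDiff N K
    · have := flip_right_mem hmem
      omega
    · have := flip_right_notMem hmem
      omega

theorem exists_crossing (α : ι) : ∃ K ∈ m.T, symmDiff K {α} ∈ m.T := by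
  have key : ∀ k : ℕ, ∀ N ∈ m.T, ∀ M ∈ m.T, (symmDiff N M).card = k → α ∈ symmDiff N M →
      ∃ K ∈ m.T, symmDiff K {α} ∈ m.T := by
    intro k
    induction k with
    | zero =>
      intro N hN M hM h hα
      rw [card_eq_zero] at h
      rw [h] at hα
      simp at hα
    | succ k ih =>
      intro N hN M hM h hα
      have hne : N ≠ M := by
        rintro rfl
        simp at h
      obtain ⟨i, hi, hi'⟩ := m.step N hN M hM hne
      by_cases hiα : i = α
      · subst hiα
        exact ⟨N, hN, hi'⟩
      · have h1 := flip_left_mem hi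
        apply ih _ hi' M hM (by omega)
        simp only [mem_symmDiff, mem_singleton] at hα ⊢
        have : α ≠ i := fun h => hiα h.symm
        tauto
  obtain ⟨N, hN⟩ := m.nonempty
  apply key _ N hN _ (m.compl_mem N hN) rfl
  simp only [mem_symmDiff, mem_compl]
  tauto

end Model

end Model

section TwoModels

variable {X Y : Type*} {G : SimpleGraph X} {H : SimpleGraph Y} {ι κ : Type*}
  [Fintype ι] [DecidableEq ι] [Fintype κ] [DecidableEq κ]

theorem iso_dist_le {X Y : Type*} {G : SimpleGraph X} {H : SimpleGraph Y} (φ : G ≃g H) (x y : X)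
    (hr : G.Reachable x y) : H.dist (φ x) (φ y) ≤ G.dist x y := by
  obtain ⟨p, hp⟩ := hr.exists_walk_length_eq_dist
  rw [← hp]
  have := SimpleGraph.dist_le (p.map φ.toHom)
  simpa using this

theorem iso_dist (φ : G ≃g H) (x y : X) : H.dist (φ x) (φ y) = G.dist x y := by
  by_cases hr : G.Reachable x y
  · apply le_antisymm
    · exact iso_dist_le φ x y hr
    · have hr' : H.Reachable (φ x) (φ y) := hr.map φ.toHom
      have := iso_dist_le φ.symm (φ x) (φ y) hr'
      simpa using this
  · have hr' : ¬ H.Reachable (φ x) (φ y) := by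
      intro h
      apply hr
      have := h.map φ.symm.toHom
      simpa using this
    rw [SimpleGraph.dist_eq_zero_of_not_reachable hr,
      SimpleGraph.dist_eq_zero_of_not_reachable hr']

/-- Two edges crossing the same hyperplane at small Hamming distance have the same class in
every other model of the graph. -/
theorem same_class (m : Model G ι) (m' : Model H κ) (φ : G ≃g H)
    (hcard : Fintype.card ι = Fintype.card κ) {P Q : Finset ι} {i : ι}
    (hP : P ∈ m.T) (hP' : symmDiff P {i} ∈ m.T) (hQ : Q ∈ m.T) (hQ' : symmDiff Q {i} ∈ m.T)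
    (hi : i ∉ symmDiff P Q) (hsmall : 2 * ((symmDiff P Q).card + 1) < Fintype.card ι)
    {α : κ} (hα : m'.Cross (φ (m.c P)) (φ (m.c (symmDiff P {i}))) α) :
    m'.Cross (φ (m.c Q)) (φ (m.c (symmDiff Q {i}))) α := by
  obtain ⟨h, hh⟩ : ∃ h, h = (symmDiff P Q).card := ⟨_, rfl⟩
  rw [← hh] at hsmall
  -- distances in G
  have d0 : G.dist (m.c P) (m.c Q) = h := by
    rw [m.dist_eq hP hQ]; omega
  have d1 : G.dist (m.c P) (m.c (symmDiff Q {i})) = h + 1 := by
    rw [m.dist_eq hP hQ', flip_right_notMem hi]; omega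
  have d2 : G.dist (m.c (symmDiff P {i})) (m.c Q) = h + 1 := by
    rw [m.dist_eq hP' hQ, flip_left_notMem hi]; omega
  have d3 : G.dist (m.c (symmDiff P {i})) (m.c (symmDiff Q {i})) = h := by
    rw [m.dist_eq hP' hQ', flip_both]; omega
  -- representatives in the other model
  obtain ⟨U, hU, hU', hUc, hUc'⟩ := hα
  have hadj : H.Adj (φ (m.c Q)) (φ (m.c (symmDiff Q {i}))) :=
    φ.map_rel_iff.mpr (m.adj_singleton hQ hQ')
  obtain ⟨W, hW, hWc, hWh⟩ : ∃ W ∈ m'.T, m'.c W = φ (m.c Q) ∧ (symmDiff U W).card = h := by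
    obtain ⟨W, hW, hWc⟩ := m'.surj (φ (m.c Q))
    have h1 : H.dist (m'.c U) (m'.c W) = h := by
      rw [hUc, hWc, iso_dist, d0]
    rw [m'.dist_eq hU hW] at h1
    by_cases h2 : (symmDiff U W).card = h
    · exact ⟨W, hW, hWc, h2⟩
    · refine ⟨Wᶜ, m'.compl_mem _ hW, (m'.c_compl hW).trans hWc, ?_⟩
      have h3 := card_symmDiff_compl U W
      rw [min_def] at h1
      split_ifs at h1 <;> omega
  obtain ⟨β, hW', hWc'⟩ := m'.exists_rep_adj hW (y := φ (m.c (symmDiff Q {i})))
    (by rw [hWc]; exact hadj)
  have f1 : H.dist (m'.c (symmDiff U {α})) (m'.c W) = h + 1 := by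
    rw [hUc', hWc, iso_dist, d2]
  have f2 : H.dist (m'.c U) (m'.c (symmDiff W {β})) = h + 1 := by
    rw [hUc, hWc', iso_dist, d1]
  have f3 : H.dist (m'.c (symmDiff U {α})) (m'.c (symmDiff W {β})) = h := by
    rw [hUc', hWc', iso_dist, d3]
  rw [m'.dist_eq hU' hW] at f1
  rw [m'.dist_eq hU hW'] at f2
  rw [m'.dist_eq hU' hW'] at f3
  clear d0 d1 d2 d3
  have hαn : α ∉ symmDiff U W := by
    intro hmem
    have := flip_left_mem hmem
    omega
  have hβn : β ∉ symmDiff U W := by
    intro hmem
    have := flip_right_mem hmem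
    omega
  have hαβ : α = β := by
    by_contra hne
    have := flip_two hαn hβn hne
    omega
  subst hαβ
  exact ⟨W, hW, hW', hWc, hWc'⟩

omit [Fintype ι] [Fintype κ] in
theorem map_symmDiff' (σ : ι ≃ κ) (A B : Finset ι) :
    (symmDiff A B).map σ.toEmbedding = symmDiff (A.map σ.toEmbedding) (B.map σ.toEmbedding) := by
  ext b
  simp only [mem_symmDiff, mem_map_equiv]

omit [Fintype ι] in
theorem sd_cancel (A S E : Finset ι) :
    symmDiff (symmDiff (symmDiff A S) E) S = symmDiff A E := by
  rw [symmDiff_assoc (symmDiff A S) E S, symmDiff_comm E S, ← symmDiff_assoc,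
    symmDiff_assoc A S S, symmDiff_self, symmDiff_bot]

theorem card_eq_of_iso (m : Model G ι) (m' : Model H κ) (φ : G ≃g H) :
    Fintype.card ι = Fintype.card κ := by
  have h1 : Fintype.card ι / 2 ≤ Fintype.card κ / 2 := by
    obtain ⟨x, y, hxy⟩ := m.exists_dist_half
    rw [← hxy, ← iso_dist φ]
    exact m'.dist_le_half _ _
  have h2 : Fintype.card κ / 2 ≤ Fintype.card ι / 2 := by
    obtain ⟨x, y, hxy⟩ := m'.exists_dist_half
    rw [← hxy, ← iso_dist φ.symm]
    exact m.dist_le_half _ _
  have h3 : Fintype.card ι % 2 = 1 ↔ Fintype.card κ % 2 = 1 := by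
    rw [m.odd_iff, m'.odd_iff]
    constructor
    · rintro ⟨x, y, z, hadj, hd⟩
      exact ⟨φ x, φ y, φ z, φ.map_rel_iff.mpr hadj, by rw [iso_dist, iso_dist, hd]⟩
    · rintro ⟨x, y, z, hadj, hd⟩
      exact ⟨φ.symm x, φ.symm y, φ.symm z, φ.symm.map_rel_iff.mpr hadj,
        by rw [iso_dist, iso_dist, hd]⟩
  omega

/-- If all edges of each class of the first model have a common class in the second one, the two
sets of sign vectors agree up to a relabelling and a reorientation. -/
theorem tope_equiv (m : Model G ι) (m' : Model H κ) (φ : G ≃g H)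
    (hcls : ∀ i : ι, ∃ α : κ, ∀ P ∈ m.T, symmDiff P {i} ∈ m.T →
      m'.Cross (φ (m.c P)) (φ (m.c (symmDiff P {i}))) α) :
    ∃ σ : ι ≃ κ, ∃ E : Finset κ, ∀ N : Finset ι,
      (N ∈ m.T ↔ symmDiff (N.map σ.toEmbedding) E ∈ m'.T) := by
  have hcard := card_eq_of_iso m m' φ
  choose s hs using hcls
  have hsurj : Function.Surjective s := by
    intro α
    obtain ⟨K, hK, hK'⟩ := m'.exists_crossing α
    have hadj := m'.adj_singleton hK hK'
    have hadj' : G.Adj (φ.symm (m'.c K)) (φ.symm (m'.c (symmDiff K {α}))) :=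
      φ.symm.map_rel_iff.mpr hadj
    obtain ⟨i, P, hP, hP', h1, h2⟩ := m.exists_cross hadj'
    refine ⟨i, ?_⟩
    have h3 := hs i P hP hP'
    rw [h1, h2, RelIso.apply_symm_apply, RelIso.apply_symm_apply] at h3
    exact h3.unique m' ⟨K, hK, hK', rfl, rfl⟩
  have hbij : Function.Bijective s := by
    rw [Fintype.bijective_iff_surjective_and_card]
    exact ⟨hsurj, hcard⟩
  set σ : ι ≃ κ := Equiv.ofBijective s hbij with hσ
  have hσs : ∀ i, σ i = s i := fun i => rfl
  obtain ⟨N0, hN0⟩ := m.nonempty
  obtain ⟨U0, hU0, hU0c⟩ := m'.surj (φ (m.c N0))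
  have claim : ∀ k : ℕ, ∀ N ∈ m.T, (symmDiff N N0).card = k →
      ∃ U ∈ m'.T, m'.c U = φ (m.c N) ∧
        U = symmDiff (N.map σ.toEmbedding) (symmDiff (N0.map σ.toEmbedding) U0) := by
    intro k
    induction k with
    | zero =>
      intro N hN h
      rw [card_eq_zero] at h
      have : N = N0 := symmDiff_eq_bot.mp h
      subst this
      refine ⟨U0, hU0, hU0c, ?_⟩
      rw [← symmDiff_assoc, symmDiff_self, bot_symmDiff]
    | succ k ih =>
      intro N hN h
      have hne : N ≠ N0 := by
        rintro rfl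
        simp at h
      obtain ⟨i, hi, hi'⟩ := m.step N hN N0 hN0 hne
      have h1 := flip_left_mem hi
      obtain ⟨U1, hU1, hU1c, hU1e⟩ := ih _ hi' (by omega)
      have h2 := hs i _ hi' (by rwa [symmDiff_singleton_symmDiff])
      rw [symmDiff_singleton_symmDiff] at h2
      obtain ⟨h3, h4⟩ := h2.rep m' hU1 hU1c
      refine ⟨symmDiff U1 {s i}, h3, h4, ?_⟩
      rw [hU1e, map_symmDiff', map_singleton]
      have h7 : σ.toEmbedding i = s i := rfl
      rw [h7]
      exact sd_cancel _ _ _
  refine ⟨σ, symmDiff (N0.map σ.toEmbedding) U0, fun N => ?_⟩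
  constructor
  · intro hN
    obtain ⟨U, hU, -, hUe⟩ := claim _ N hN rfl
    rw [← hUe]
    exact hU
  · intro hV
    obtain ⟨M, hM, hMc⟩ := m.surj (φ.symm (m'.c _))
    obtain ⟨U, hU, hUc, hUe⟩ := claim _ M hM rfl
    rw [hMc, RelIso.apply_symm_apply, m'.eq_iff _ hU _ hV] at hUc
    rcases hUc with h | h
    · rw [hUe] at h
      have h5 := symmDiff_left_injective _ h
      rw [Finset.map_inj] at h5
      rwa [← h5]
    · rw [hUe, ← compl_symmDiff_left] at h
      have h5 := symmDiff_left_injective _ h
      have h6 : M = Nᶜ := by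
        ext a
        have := congrArg (fun S => σ a ∈ S) h5
        simpa [mem_map_equiv] using this
      rw [show N = Mᶜ by rw [h6, compl_compl]]
      exact m.compl_mem _ hM

end TwoModels


end Comb

namespace Arrangement

variable {d : ℕ} (A : Arrangement d)

/-! ### linear functionals -/

def f (i : Fin A.n) : (Fin (d + 1) → ℝ) →ₗ[ℝ] ℝ where
  toFun x := dotProduct (A.a i) x
  map_add' := by intro x y; exact dotProduct_add _ _ _
  map_smul' := by intro c x; exact dotProduct_smul _ _ _

theorem signs_apply (x : Fin (d + 1) → ℝ) (i : Fin A.n) :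
    A.signs x i = SignType.sign (A.f i x) := rfl

theorem f_smul_eq {i j : Fin A.n} {c : ℝ} (h : A.f i = c • A.f j) : A.a i = c • A.a j := by
  ext k
  have := LinearMap.congr_fun h (Pi.single k 1)
  simpa [f] using this

theorem f_ne_zero (i : Fin A.n) : A.f i ≠ 0 := by
  intro h
  apply A.ne_zero i
  ext k
  have := LinearMap.congr_fun h (Pi.single k 1)
  simpa [f] using this

theorem f_parallel {i j : Fin A.n} {c : ℝ} (h : A.f i = c • A.f j) : i = j := by
  by_contra hne
  exact A.distinct i j hne c (A.f_smul_eq h)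

theorem essential {x : Fin (d + 1) → ℝ} (h : ∀ i, A.f i x = 0) : x = 0 :=
  A.no_common_point x h

theorem signs_neg (x : Fin (d + 1) → ℝ) : A.signs (-x) = -A.signs x := by
  ext i
  rw [Pi.neg_apply, signs_apply, signs_apply, map_neg, Left.sign_neg]

theorem signs_ne_zero {x : Fin (d + 1) → ℝ} (hx : x ≠ 0) : A.signs x ≠ 0 := by
  intro h
  apply hx
  apply A.essential
  intro i
  have := congrFun h i
  rwa [signs_apply, Pi.zero_apply, sign_eq_zero_iff] at this

theorem ne_zero_of_signs {x y : Fin (d + 1) → ℝ} (hy : y ≠ 0) (h : A.signs x = A.signs y) :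
    x ≠ 0 := by
  rintro rfl
  apply A.signs_ne_zero hy
  rw [← h]
  ext i
  rw [signs_apply, map_zero, sign_zero]; rfl

theorem mem_face_self {x : Fin (d + 1) → ℝ} (hx : x ≠ 0) : x ∈ A.face x := ⟨hx, Or.inl rfl⟩

theorem face_eq_iff {x y : Fin (d + 1) → ℝ} (hx : x ≠ 0) :
    A.face x = A.face y ↔ A.signs x = A.signs y ∨ A.signs x = -A.signs y := by
  constructor
  · intro h
    have : x ∈ A.face y := h ▸ A.mem_face_self hx
    exact this.2
  · intro h
    ext z
    simp only [face, Set.mem_ofPred_eq]
    rcases h with h | h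
    · rw [h]
    · rw [h, neg_neg]; tauto

/-- closure relation on sign vectors -/
def sle {ι : Type*} (s t : ι → SignType) : Prop := ∀ i, s i ≠ 0 → s i = t i

theorem face_subset_closure_iff {x y : Fin (d + 1) → ℝ} (hx : x ≠ 0) (hy : y ≠ 0) :
    A.face x ⊆ closure (A.face y) ↔
      sle (A.signs x) (A.signs y) ∨ sle (A.signs x) (-A.signs y) := by
  constructor
  · intro h
    have hxc : x ∈ closure (A.face y) := h (A.mem_face_self hx)
    -- closed double cone
    set K : (Fin (d + 1) → ℝ) → Set (Fin (d + 1) → ℝ) := fun w =>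
      ⋂ i, {z | (A.signs w i = 1 → 0 ≤ A.f i z) ∧ (A.signs w i = -1 → A.f i z ≤ 0) ∧
        (A.signs w i = 0 → A.f i z = 0)} with hK
    have hcont : ∀ i, Continuous (A.f i) := fun i => LinearMap.continuous_of_finiteDimensional _
    have hclosed : ∀ w, IsClosed (K w) := by
      intro w
      apply isClosed_iInter
      intro i
      simp only [Set.ofPred_and]
      refine IsClosed.inter ?_ (IsClosed.inter ?_ ?_)
      · by_cases hw : A.signs w i = 1
        · simp only [hw, true_implies]
          exact isClosed_le continuous_const (hcont i)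
        · simp [hw]
      · by_cases hw : A.signs w i = -1
        · simp only [hw, true_implies]
          exact isClosed_le (hcont i) continuous_const
        · simp [hw]
      · by_cases hw : A.signs w i = 0
        · simp only [hw, true_implies]
          exact isClosed_eq (hcont i) continuous_const
        · simp [hw]
    have hsub : A.face y ⊆ K y ∪ K (-y) := by
      rintro z ⟨-, hz | hz⟩
      · left
        rw [Set.mem_iInter]
        intro i
        have hzi := congrFun hz i
        rw [signs_apply] at hzi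
        refine ⟨fun h1 => ?_, fun h1 => ?_, fun h1 => ?_⟩
        · rw [h1, sign_eq_one_iff] at hzi; exact hzi.le
        · rw [h1, sign_eq_neg_one_iff] at hzi; exact hzi.le
        · rw [h1, sign_eq_zero_iff] at hzi; exact hzi
      · right
        rw [Set.mem_iInter]
        intro i
        rw [← A.signs_neg] at hz
        have hzi := congrFun hz i
        rw [signs_apply] at hzi
        refine ⟨fun h1 => ?_, fun h1 => ?_, fun h1 => ?_⟩
        · rw [h1, sign_eq_one_iff] at hzi; exact hzi.le
        · rw [h1, sign_eq_neg_one_iff] at hzi; exact hzi.le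
        · rw [h1, sign_eq_zero_iff] at hzi; exact hzi
    have hx2 : x ∈ K y ∪ K (-y) :=
      closure_minimal hsub ((hclosed y).union (hclosed (-y))) hxc
    have key : ∀ w, x ∈ K w → sle (A.signs x) (A.signs w) := by
      intro w hw i hi
      rw [Set.mem_iInter] at hw
      obtain ⟨h1, h2, h3⟩ := hw i
      rw [signs_apply] at hi ⊢
      rcases lt_trichotomy (A.f i x) 0 with hlt | heq | hgt
      · rw [sign_neg hlt]
        cases hs : A.signs w i
        · have := h3 hs
          linarith
        · rfl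
        · have := h1 hs
          linarith
      · rw [heq, sign_zero] at hi
        exact absurd rfl hi
      · rw [sign_pos hgt]
        cases hs : A.signs w i
        · have := h3 hs
          linarith
        · have := h2 hs
          linarith
        · rfl
    rcases hx2 with h1 | h1
    · left; exact key y h1
    · right; rw [← A.signs_neg]; exact key (-y) h1
  · intro h
    -- it suffices to treat one sign
    have key : ∀ x' y' : Fin (d + 1) → ℝ, y' ≠ 0 → sle (A.signs x') (A.signs y') →
        (A.signs y' = A.signs y ∨ A.signs y' = -A.signs y) → x' ∈ closure (A.face y) := by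
      intro x' y' hy' hle hyy
      have hsg : ∀ t : ℝ, 0 < t → A.signs (x' + t • y') = A.signs y' := by
        intro t ht
        ext i
        rw [signs_apply, signs_apply, map_add, map_smul, smul_eq_mul]
        by_cases h0 : A.f i x' = 0
        · rw [h0, zero_add, sign_mul, sign_pos ht, one_mul]
        · have h1 : SignType.sign (A.f i x') = SignType.sign (A.f i y') := by
            apply hle i
            rw [signs_apply]
            intro h2
            rw [sign_eq_zero_iff] at h2
            exact h0 h2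
          have := sign_comb (a := 1) (b := t) one_pos ht h1
          rw [one_mul] at this
          rw [this, h1]
      have hmem : ∀ t : ℝ, 0 < t → x' + t • y' ∈ A.face y := by
        intro t ht
        refine ⟨A.ne_zero_of_signs hy' (hsg t ht), ?_⟩
        rw [hsg t ht]
        exact hyy
      have htend : Tendsto (fun t : ℝ => x' + t • y') (𝓝[>] 0) (𝓝 x') := by
        have hc : Continuous (fun t : ℝ => x' + t • y') := by fun_prop
        have := (hc.tendsto 0).mono_left (nhdsWithin_le_nhds (s := Set.Ioi (0:ℝ)))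
        simpa using this
      exact mem_closure_of_tendsto htend
        (by filter_upwards [self_mem_nhdsWithin] with t ht using hmem t ht)
    rintro x' ⟨-, hx' | hx'⟩
    · rcases h with h | h
      · exact key x' y hy (by rw [hx']; exact h) (Or.inl rfl)
      · exact key x' (-y) (neg_ne_zero.mpr hy) (by rw [hx', A.signs_neg]; exact h)
          (Or.inr (A.signs_neg y))
    · have hneg : ∀ s t : Fin A.n → SignType, sle s t → sle (-s) (-t) := by
        intro s t hst i hi
        rw [Pi.neg_apply, Pi.neg_apply]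
        have : s i ≠ 0 := by
          intro h0
          apply hi
          rw [Pi.neg_apply, h0]; rfl
        rw [hst i this]
      rcases h with h | h
      · exact key x' (-y) (neg_ne_zero.mpr hy) (by rw [hx', A.signs_neg]; exact hneg _ _ h)
          (Or.inr (A.signs_neg y))
      · exact key x' y hy (by
          rw [hx']
          have := hneg _ _ h
          rwa [neg_neg] at this) (Or.inl rfl)

/-! ### dimension of faces -/

theorem span_face {x : Fin (d + 1) → ℝ} (hx : x ≠ 0) :
    Submodule.span ℝ (A.face x) =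
      ⨅ i : {i // A.f i x = 0}, LinearMap.ker (A.f i.1) := by
  apply le_antisymm
  · rw [Submodule.span_le]
    rintro y ⟨-, hy⟩
    rw [SetLike.mem_coe, Submodule.mem_iInf]
    rintro ⟨i, hi⟩
    rw [LinearMap.mem_ker]
    rcases hy with hy | hy
    · have := congrFun hy i
      rwa [signs_apply, signs_apply, hi, sign_zero, sign_eq_zero_iff] at this
    · have := congrFun hy i
      rw [signs_apply, Pi.neg_apply, signs_apply, hi, sign_zero] at this
      rwa [show (-(0 : SignType)) = 0 from rfl, sign_eq_zero_iff] at this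
  · intro z hz
    rw [Submodule.mem_iInf] at hz
    have hev : ∀ᶠ ε in 𝓝[>] (0 : ℝ), (∀ i, SignType.sign (A.f i (x + ε • z)) =
        if A.f i x = 0 then SignType.sign (A.f i z) else SignType.sign (A.f i x)) ∧ 0 < ε := by
      rw [eventually_and, eventually_all]
      exact ⟨fun i => ev_sign (A.f i) x z, self_mem_nhdsWithin⟩
    obtain ⟨ε, hε, hε0⟩ := hev.exists
    have hs : A.signs (x + ε • z) = A.signs x := by
      ext i
      rw [signs_apply, signs_apply, hε i]
      by_cases h0 : A.f i x = 0
      · have := hz ⟨i, h0⟩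
        rw [LinearMap.mem_ker] at this
        simp only at this
        rw [if_pos h0, h0, this]
      · rw [if_neg h0]
    have h1 : x + ε • z ∈ A.face x := ⟨A.ne_zero_of_signs hx hs, Or.inl hs⟩
    have h2 : z = ε⁻¹ • ((x + ε • z) - x) := by
      rw [add_sub_cancel_left, smul_smul, inv_mul_cancel₀ hε0.ne', one_smul]
    rw [h2]
    exact Submodule.smul_mem _ _ (Submodule.sub_mem _ (Submodule.subset_span h1)
      (Submodule.subset_span (A.mem_face_self hx)))

theorem finrank_ker (i : Fin A.n) : Module.finrank ℝ (LinearMap.ker (A.f i)) = d := by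
  have h1 := LinearMap.finrank_range_add_finrank_ker (A.f i)
  have h2 : LinearMap.range (A.f i) = ⊤ := by
    rw [LinearMap.range_eq_top]
    exact LinearMap.surjective (A.f_ne_zero i)
  rw [h2, finrank_top, Module.finrank_self, Module.finrank_fin_fun] at h1
  omega

theorem finrank_span_pos {x : Fin (d + 1) → ℝ} (hx : x ≠ 0) :
    0 < Module.finrank ℝ (Submodule.span ℝ (A.face x)) := by
  rw [Module.finrank_pos_iff]
  rw [Submodule.nontrivial_iff_ne_bot]
  intro h
  have := Submodule.subset_span (R := ℝ) (A.mem_face_self hx)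
  rw [h] at this
  exact hx (by simpa using this)

theorem dim_face_iff {x : Fin (d + 1) → ℝ} (hx : x ≠ 0) :
    Module.finrank ℝ (Submodule.span ℝ (A.face x)) - 1 = d ↔ ∀ i, A.f i x ≠ 0 := by
  have hpos := A.finrank_span_pos hx
  constructor
  · intro h i hi
    have hle : Submodule.span ℝ (A.face x) ≤ LinearMap.ker (A.f i) := by
      rw [A.span_face hx]
      exact iInf_le (fun j : {i // A.f i x = 0} => LinearMap.ker (A.f j.1)) ⟨i, hi⟩
    have := Submodule.finrank_mono hle
    rw [A.finrank_ker] at this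
    omega
  · intro h
    have : Submodule.span ℝ (A.face x) = ⊤ := by
      rw [A.span_face hx, iInf_eq_top]
      rintro ⟨i, hi⟩
      exact absurd hi (h i)
    rw [this, finrank_top, Module.finrank_fin_fun]
    omega

theorem dim_wall_iff {x : Fin (d + 1) → ℝ} (hx : x ≠ 0) :
    Module.finrank ℝ (Submodule.span ℝ (A.face x)) - 1 + 1 = d ↔ ∃! i, A.f i x = 0 := by
  have hpos := A.finrank_span_pos hx
  constructor
  · intro h
    have hex : ∃ i, A.f i x = 0 := by
      by_contra hcon
      push Not at hcon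
      have := (A.dim_face_iff hx).2 hcon
      omega
    obtain ⟨i, hi⟩ := hex
    refine ⟨i, hi, ?_⟩
    intro j hj
    by_contra hne
    have hle : Submodule.span ℝ (A.face x) ≤ LinearMap.ker (A.f i) ⊓ LinearMap.ker (A.f j) := by
      rw [A.span_face hx]
      exact le_inf (iInf_le (fun j : {i // A.f i x = 0} => LinearMap.ker (A.f j.1)) ⟨i, hi⟩)
        (iInf_le (fun j : {i // A.f i x = 0} => LinearMap.ker (A.f j.1)) ⟨j, hj⟩)
    have hlt : LinearMap.ker (A.f i) ⊓ LinearMap.ker (A.f j) < LinearMap.ker (A.f i) := by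
      refine lt_of_le_of_ne inf_le_left ?_
      intro heq
      rw [inf_eq_left] at heq
      -- f j is a multiple of f i
      obtain ⟨w, hw⟩ : ∃ w, A.f i w ≠ 0 := by
        by_contra hcon
        push Not at hcon
        exact A.f_ne_zero i (LinearMap.ext (by simpa using hcon))
      apply hne
      apply A.f_parallel (c := A.f j w / A.f i w)
      refine LinearMap.ext fun u => ?_
      have hmem : u - (A.f i u / A.f i w) • w ∈ LinearMap.ker (A.f i) := by
        rw [LinearMap.mem_ker, map_sub, map_smul, smul_eq_mul]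
        field_simp; ring
      have h2 := heq hmem
      rw [LinearMap.mem_ker, map_sub, map_smul, smul_eq_mul] at h2
      rw [LinearMap.smul_apply, smul_eq_mul]
      have : A.f j u = A.f i u / A.f i w * A.f j w := by linarith
      rw [this]; ring
    have h1 := Submodule.finrank_mono hle
    have h2 := Submodule.finrank_lt_finrank_of_lt hlt
    rw [A.finrank_ker] at h2
    omega
  · rintro ⟨i, hi, huniq⟩
    have : Submodule.span ℝ (A.face x) = LinearMap.ker (A.f i) := by
      rw [A.span_face hx]
      apply le_antisymm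
      · exact iInf_le (fun j : {i // A.f i x = 0} => LinearMap.ker (A.f j.1)) ⟨i, hi⟩
      · apply le_iInf
        rintro ⟨j, hj⟩
        have := huniq j hj
        subst this
        exact le_rfl
    have h3 := A.finrank_ker i
    rw [this] at hpos ⊢
    rw [h3] at hpos ⊢
    omega

end Arrangement

namespace Arrangement

variable {d : ℕ} (A : Arrangement d)

open Classical in
noncomputable def neg (x : Fin (d + 1) → ℝ) : Finset (Fin A.n) :=
  Finset.univ.filter (fun i => A.f i x < 0)

def Gen (x : Fin (d + 1) → ℝ) : Prop := ∀ i, A.f i x ≠ 0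

variable {A}

theorem mem_neg {x : Fin (d + 1) → ℝ} {i : Fin A.n} : i ∈ A.neg x ↔ A.f i x < 0 := by
  simp [neg]

theorem Gen.neg {x : Fin (d + 1) → ℝ} (hx : A.Gen x) : A.Gen (-x) := by
  intro i
  rw [map_neg, neg_ne_zero]
  exact hx i

theorem neg_neg_eq {x : Fin (d + 1) → ℝ} (hx : A.Gen x) : A.neg (-x) = (A.neg x)ᶜ := by
  ext i
  rw [Finset.mem_compl, mem_neg, mem_neg, map_neg]
  have := hx i
  constructor
  · intro h; linarith
  · intro h
    push Not at h
    have := lt_of_le_of_ne h (Ne.symm this)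
    linarith

theorem signs_eq_iff {x y : Fin (d + 1) → ℝ} (hx : A.Gen x) (hy : A.Gen y) :
    A.signs x = A.signs y ↔ A.neg x = A.neg y := by
  constructor
  · intro h
    ext i
    have := congrFun h i
    rw [signs_apply, signs_apply] at this
    rw [mem_neg, mem_neg, ← sign_eq_neg_one_iff, ← sign_eq_neg_one_iff, this]
  · intro h
    ext i
    have h1 : A.f i x < 0 ↔ A.f i y < 0 := by rw [← mem_neg, ← mem_neg, h]
    rw [signs_apply, signs_apply]
    rcases lt_or_gt_of_ne (hx i) with h2 | h2
    · rw [sign_neg h2, sign_neg (h1.1 h2)]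
    · rcases lt_or_gt_of_ne (hy i) with h3 | h3
      · have := h1.2 h3
        linarith
      · rw [sign_pos h2, sign_pos h3]

theorem signs_eq_neg_iff {x y : Fin (d + 1) → ℝ} (hx : A.Gen x) (hy : A.Gen y) :
    A.signs x = -A.signs y ↔ A.neg x = (A.neg y)ᶜ := by
  rw [← A.signs_neg, signs_eq_iff hx hy.neg, neg_neg_eq hy]

variable (A)

theorem le_n : d + 1 ≤ A.n := by
  let L : (Fin (d + 1) → ℝ) →ₗ[ℝ] (Fin A.n → ℝ) := LinearMap.pi A.f
  have hinj : Function.Injective L := by
    rw [← LinearMap.ker_eq_bot, LinearMap.ker_eq_bot']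
    intro x hx
    apply A.essential
    intro i
    exact congrFun hx i
  have := LinearMap.finrank_le_finrank_of_injective hinj
  rwa [Module.finrank_fin_fun, Module.finrank_fin_fun] at this

variable {A}

theorem Gen.ne_zero {x : Fin (d + 1) → ℝ} (hx : A.Gen x) : x ≠ 0 := by
  rintro rfl
  have := A.le_n
  exact hx ⟨0, by omega⟩ (map_zero _)

/-- the cell of a generic point -/
def cellOf (x : Fin (d + 1) → ℝ) (hx : A.Gen x) : A.Cell :=
  ⟨⟨A.face x, x, hx.ne_zero, rfl⟩, (A.dim_face_iff hx.ne_zero).2 hx⟩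

theorem cellOf_eq_iff {x y : Fin (d + 1) → ℝ} (hx : A.Gen x) (hy : A.Gen y) :
    cellOf x hx = cellOf y hy ↔ A.neg x = A.neg y ∨ A.neg x = (A.neg y)ᶜ := by
  rw [← signs_eq_iff hx hy, ← signs_eq_neg_iff hx hy, ← A.face_eq_iff hx.ne_zero]
  constructor
  · intro h
    exact congrArg (fun C : A.Cell => C.1.1) h
  · intro h
    exact Subtype.ext (Subtype.ext h)

theorem exists_cellOf (C : A.Cell) : ∃ x, ∃ hx : A.Gen x, cellOf x hx = C := by
  obtain ⟨⟨F, x, hx, rfl⟩, hdim⟩ := C
  have hg : A.Gen x := (A.dim_face_iff hx).1 hdim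
  exact ⟨x, hg, rfl⟩

theorem exists_gen (A : Arrangement d) : ∃ x, A.Gen x :=
  exists_generic A.f A.f_ne_zero

/-- flipping one sign through a wall -/
theorem exists_wall {x y : Fin (d + 1) → ℝ} (hd : 2 ≤ A.n) (hx : A.Gen x) (hy : A.Gen y)
    {i : Fin A.n} (h : symmDiff (A.neg x) (A.neg y) = {i}) :
    ∃ z, z ≠ 0 ∧ A.f i z = 0 ∧ (∀ j, j ≠ i → A.f j z ≠ 0) ∧
      (∀ j, j ≠ i → SignType.sign (A.f j z) = SignType.sign (A.f j x) ∧
        SignType.sign (A.f j z) = SignType.sign (A.f j y)) := by
  have hmem : ∀ j, (j ∈ A.neg x ↔ j ∈ A.neg y) ↔ j ≠ i := by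
    intro j
    have : j ∈ symmDiff (A.neg x) (A.neg y) ↔ j = i := by rw [h, Finset.mem_singleton]
    rw [Finset.mem_symmDiff] at this
    tauto
  have hsame : ∀ j, j ≠ i → SignType.sign (A.f j x) = SignType.sign (A.f j y) := by
    intro j hj
    have h1 := (hmem j).2 hj
    rw [mem_neg, mem_neg] at h1
    rcases lt_or_gt_of_ne (hx j) with h2 | h2
    · rw [sign_neg h2, sign_neg (h1.1 h2)]
    · rcases lt_or_gt_of_ne (hy j) with h3 | h3
      · have := h1.2 h3
        linarith
      · rw [sign_pos h2, sign_pos h3]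
  have hopp : (A.f i x < 0 ∧ 0 < A.f i y) ∨ (A.f i y < 0 ∧ 0 < A.f i x) := by
    have h1 : ¬ (i ∈ A.neg x ↔ i ∈ A.neg y) := fun h => (hmem i).1 h rfl
    rw [mem_neg, mem_neg] at h1
    have h2 := hx i
    have h3 := hy i
    rcases lt_or_gt_of_ne h2 with h4 | h4
    · left
      refine ⟨h4, ?_⟩
      rcases lt_or_gt_of_ne h3 with h5 | h5
      · exact absurd (by constructor <;> intro <;> assumption) h1
      · exact h5
    · right
      refine ⟨?_, h4⟩
      rcases lt_or_gt_of_ne h3 with h5 | h5
      · exact h5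
      · exact absurd (by constructor <;> intro h6 <;> linarith) h1
  have hax : 0 < |A.f i y| := abs_pos.mpr (hy i)
  have hay : 0 < |A.f i x| := abs_pos.mpr (hx i)
  set z := |A.f i y| • x + |A.f i x| • y with hz
  have hfz : ∀ j, A.f j z = |A.f i y| * A.f j x + |A.f i x| * A.f j y := by
    intro j
    rw [hz, map_add, map_smul, map_smul]; rfl
  have hzj : ∀ j, j ≠ i → SignType.sign (A.f j z) = SignType.sign (A.f j x) := by
    intro j hj
    rw [hfz j]
    exact sign_comb hax hay (hsame j hj)
  have hzj' : ∀ j, j ≠ i → A.f j z ≠ 0 := by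
    intro j hj h0
    have := hzj j hj
    rw [h0, sign_zero, eq_comm, sign_eq_zero_iff] at this
    exact hx j this
  refine ⟨z, ?_, ?_, hzj', ?_⟩
  · obtain ⟨j, hj⟩ : ∃ j : Fin A.n, j ≠ i := by
      have : Nontrivial (Fin A.n) := Fin.nontrivial_iff_two_le.mpr hd
      exact exists_ne i
    intro h0
    apply hzj' j hj
    rw [h0, map_zero]
  · rw [hfz i]
    rcases hopp with ⟨h1, h2⟩ | ⟨h1, h2⟩
    · rw [abs_of_neg h1, abs_of_pos h2]; ring
    · rw [abs_of_neg h1, abs_of_pos h2]; ring
  · intro j hj
    exact ⟨hzj j hj, (hzj j hj).trans (hsame j hj)⟩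

theorem adj_of_symmDiff {x y : Fin (d + 1) → ℝ} (hd : 2 ≤ A.n) (hx : A.Gen x) (hy : A.Gen y)
    {i : Fin A.n} (h : symmDiff (A.neg x) (A.neg y) = {i}) :
    A.cellGraph.Adj (cellOf x hx) (cellOf y hy) := by
  obtain ⟨z, hz0, hzi, hzj, hzs⟩ := exists_wall hd hx hy h
  refine ⟨?_, ⟨A.face z, z, hz0, rfl⟩, ?_, ?_, ?_⟩
  · intro heq
    rw [cellOf_eq_iff] at heq
    rcases heq with h1 | h1
    · rw [h1, symmDiff_self] at h
      have := congrArg Finset.card h
      simp at this
    · rw [h1, symmDiff_comm] at h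
      have := congrArg Finset.card h
      rw [Model.card_symmDiff_self_compl] at this
      simp at this
      omega
  · apply (A.dim_wall_iff hz0).2
    refine ⟨i, hzi, ?_⟩
    intro j hj
    by_contra hne
    exact hzj j hne hj
  · apply (A.face_subset_closure_iff hz0 hx.ne_zero).2
    left
    intro j hj
    by_cases hji : j = i
    · subst hji
      rw [signs_apply, hzi, sign_zero] at hj
      exact absurd rfl hj
    · rw [signs_apply, signs_apply]
      exact (hzs j hji).1
  · apply (A.face_subset_closure_iff hz0 hy.ne_zero).2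
    left
    intro j hj
    by_cases hji : j = i
    · subst hji
      rw [signs_apply, hzi, sign_zero] at hj
      exact absurd rfl hj
    · rw [signs_apply, signs_apply]
      exact (hzs j hji).2

theorem symmDiff_of_adj {x y : Fin (d + 1) → ℝ} (hx : A.Gen x) (hy : A.Gen y)
    (h : A.cellGraph.Adj (cellOf x hx) (cellOf y hy)) :
    (symmDiff (A.neg x) (A.neg y)).card = 1 ∨
      (symmDiff (A.neg x) (A.neg y)).card + 1 = Fintype.card (Fin A.n) := by
  obtain ⟨hne, ⟨F, z, hz0, rfl⟩, hdim, hC, hD⟩ := h
  obtain ⟨i, hi, huniq⟩ := (A.dim_wall_iff hz0).1 hdim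
  have h1 : ∃ x', (x' = x ∨ x' = -x) ∧ sle (A.signs z) (A.signs x') := by
    rcases (A.face_subset_closure_iff hz0 hx.ne_zero).1 hC with h | h
    · exact ⟨x, Or.inl rfl, h⟩
    · exact ⟨-x, Or.inr rfl, by rw [A.signs_neg]; exact h⟩
  have h2 : ∃ y', (y' = y ∨ y' = -y) ∧ sle (A.signs z) (A.signs y') := by
    rcases (A.face_subset_closure_iff hz0 hy.ne_zero).1 hD with h | h
    · exact ⟨y, Or.inl rfl, h⟩
    · exact ⟨-y, Or.inr rfl, by rw [A.signs_neg]; exact h⟩
  obtain ⟨x', hx', hx's⟩ := h1
  obtain ⟨y', hy', hy's⟩ := h2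
  have hsub : symmDiff (A.neg x') (A.neg y') ⊆ {i} := by
    intro j hj
    rw [Finset.mem_singleton]
    by_contra hji
    have hzj : A.signs z j ≠ 0 := by
      rw [signs_apply]
      intro h0
      rw [sign_eq_zero_iff] at h0
      exact hji (huniq j h0)
    have e1 := hx's j hzj
    have e2 := hy's j hzj
    rw [e1, signs_apply, signs_apply] at e2
    rw [Finset.mem_symmDiff, mem_neg, mem_neg, ← sign_eq_neg_one_iff, ← sign_eq_neg_one_iff,
      e2] at hj
    tauto
  have hcases : symmDiff (A.neg x') (A.neg y') = symmDiff (A.neg x) (A.neg y) ∨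
      symmDiff (A.neg x') (A.neg y') = (symmDiff (A.neg x) (A.neg y))ᶜ := by
    rcases hx' with rfl | rfl <;> rcases hy' with rfl | rfl
    · left; rfl
    · right; rw [neg_neg_eq hy, compl_symmDiff_right]
    · right; rw [neg_neg_eq hx, compl_symmDiff_left]
    · left; rw [neg_neg_eq hy, neg_neg_eq hx, compl_symmDiff_right, compl_symmDiff_left,
        compl_compl]
  have hcard : (symmDiff (A.neg x') (A.neg y')).card = 1 := by
    have hle := Finset.card_le_card hsub
    rw [Finset.card_singleton] at hle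
    have hpos : (symmDiff (A.neg x') (A.neg y')).card ≠ 0 := by
      intro h0
      apply hne
      rw [cellOf_eq_iff]
      rw [Finset.card_eq_zero] at h0
      rcases hcases with h | h
      · left
        rw [h0] at h
        exact symmDiff_eq_bot.mp h.symm
      · right
        rw [h0, ← compl_symmDiff_right] at h
        exact symmDiff_eq_bot.mp h.symm
    omega
  rcases hcases with h | h
  · left; rw [← h]; exact hcard
  · right
    rw [h, Finset.card_compl] at hcard
    have := Finset.card_le_univ (symmDiff (A.neg x) (A.neg y))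
    omega

/-- one step along a gallery -/
theorem exists_step {x y : Fin (d + 1) → ℝ} (hx : A.Gen x) (hy : A.Gen y)
    (hne : A.neg x ≠ A.neg y) :
    ∃ z, A.Gen z ∧ ∃ i ∈ symmDiff (A.neg x) (A.neg y), A.neg z = symmDiff (A.neg x) {i} := by
  have hprod : ∀ u v, A.Gen u → A.Gen v → ∀ l,
      (A.f l u * A.f l v < 0 ↔ l ∈ symmDiff (A.neg u) (A.neg v)) := by
    intro u v hu hv l
    rw [Finset.mem_symmDiff, mem_neg, mem_neg]
    rcases lt_or_gt_of_ne (hu l) with h1 | h1 <;> rcases lt_or_gt_of_ne (hv l) with h2 | h2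
    · constructor
      · intro h; nlinarith [mul_pos_of_neg_of_neg h1 h2]
      · rintro (⟨-, h⟩ | ⟨-, h⟩)
        · exact absurd h2 h
        · exact absurd h1 h
    · constructor
      · intro _; left; exact ⟨h1, by linarith⟩
      · intro _; exact mul_neg_of_neg_of_pos h1 h2
    · constructor
      · intro _; right; exact ⟨h2, by linarith⟩
      · intro _; exact mul_neg_of_pos_of_neg h1 h2
    · constructor
      · intro h; nlinarith [mul_pos h1 h2]
      · rintro (⟨h, -⟩ | ⟨h, -⟩) <;> linarith
  obtain ⟨j0, hj0⟩ : ∃ j, j ∈ symmDiff (A.neg x) (A.neg y) := by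
    by_contra hcon
    push Not at hcon
    apply hne
    exact symmDiff_eq_bot.mp (Finset.eq_empty_of_forall_notMem hcon)
  obtain ⟨z, hz, j, hj, hl⟩ := gallery_step A.f hx hy j0 ((hprod x y hx hy j0).2 hj0)
  refine ⟨z, hz, j, (hprod x y hx hy j).1 hj, ?_⟩
  have : symmDiff (A.neg x) (A.neg z) = {j} := by
    ext l
    rw [← hprod x z hx hz l, hl l, Finset.mem_singleton]
    constructor
    · rintro ⟨c, hc⟩
      exact A.f_parallel hc
    · rintro rfl
      exact ⟨1, by rw [one_smul]⟩
  rw [← this, ← symmDiff_assoc, symmDiff_self, bot_symmDiff]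

/-- The combinatorial model of the cell graph. -/
noncomputable def model (A : Arrangement d) (hd : 3 ≤ A.n) : Model A.cellGraph (Fin A.n) where
  T := {N | ∃ x, A.Gen x ∧ A.neg x = N}
  c := fun N => by
    classical
    exact if h : ∃ x, A.Gen x ∧ A.neg x = N then cellOf h.choose h.choose_spec.1
      else cellOf A.exists_gen.choose A.exists_gen.choose_spec
  compl_mem := by
    rintro N ⟨x, hx, rfl⟩
    exact ⟨-x, hx.neg, neg_neg_eq hx⟩
  surj := by
    intro C
    obtain ⟨x, hx, rfl⟩ := exists_cellOf C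
    have hex : ∃ y, A.Gen y ∧ A.neg y = A.neg x := ⟨x, hx, rfl⟩
    refine ⟨A.neg x, hex, ?_⟩
    simp only [dif_pos hex]
    rw [cellOf_eq_iff]
    left
    exact hex.choose_spec.2
  eq_iff := by
    intro N hN M hM
    simp only [dif_pos (show ∃ y, A.Gen y ∧ A.neg y = N from hN),
      dif_pos (show ∃ y, A.Gen y ∧ A.neg y = M from hM)]
    rw [cellOf_eq_iff]
    rw [(show ∃ y, A.Gen y ∧ A.neg y = N from hN).choose_spec.2,
      (show ∃ y, A.Gen y ∧ A.neg y = M from hM).choose_spec.2]
  adj_iff := by
    intro N hN M hM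
    have hN' : ∃ y, A.Gen y ∧ A.neg y = N := hN
    have hM' : ∃ y, A.Gen y ∧ A.neg y = M := hM
    simp only [dif_pos hN', dif_pos hM']
    have e1 := hN'.choose_spec
    have e2 := hM'.choose_spec
    set x := hN'.choose
    set y := hM'.choose
    constructor
    · intro h
      have := symmDiff_of_adj e1.1 e2.1 h
      rwa [e1.2, e2.2] at this
    · rintro (h | h)
      · obtain ⟨i, hi⟩ := Finset.card_eq_one.1 h
        apply adj_of_symmDiff (by omega) e1.1 e2.1 (i := i)
        rw [e1.2, e2.2, hi]
      · have h3 := card_symmDiff_compl N M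
        obtain ⟨i, hi⟩ := Finset.card_eq_one.1 (show (symmDiff N Mᶜ).card = 1 by omega)
        have h4 := adj_of_symmDiff (A := A) (by omega) e1.1 e2.1.neg (i := i) (by
          rw [neg_neg_eq e2.1, e1.2, e2.2, hi])
        have h5 : cellOf y e2.1 = cellOf (-y) e2.1.neg := by
          rw [cellOf_eq_iff]
          right
          rw [neg_neg_eq e2.1, compl_compl]
        rw [h5]
        exact h4
  step := by
    rintro N ⟨x, hx, rfl⟩ M ⟨y, hy, rfl⟩ hne
    obtain ⟨z, hz, i, hi, hzi⟩ := exists_step hx hy hne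
    exact ⟨i, hi, z, hz, hzi⟩
  three_le := by rw [Fintype.card_fin]; exact hd
  nonempty := by
    obtain ⟨x, hx⟩ := A.exists_gen
    exact ⟨A.neg x, x, hx, rfl⟩

end Arrangement

theorem exists_smul_of_ker_le {V : Type*} [AddCommGroup V] [Module ℝ V] {φ ψ : V →ₗ[ℝ] ℝ}
    (h : LinearMap.ker ψ ≤ LinearMap.ker φ) : ∃ c : ℝ, φ = c • ψ := by
  by_cases hψ : ψ = 0
  · refine ⟨0, ?_⟩
    rw [zero_smul]
    refine LinearMap.ext fun u => ?_
    have : u ∈ LinearMap.ker φ := h (by rw [hψ]; simp)
    simpa using this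
  · obtain ⟨w, hw⟩ : ∃ w, ψ w ≠ 0 := by
      by_contra hcon
      push Not at hcon
      exact hψ (LinearMap.ext (by simpa using hcon))
    refine ⟨φ w / ψ w, LinearMap.ext fun u => ?_⟩
    have hmem : u - (ψ u / ψ w) • w ∈ LinearMap.ker ψ := by
      rw [LinearMap.mem_ker, map_sub, map_smul, smul_eq_mul]
      field_simp; ring
    have h2 := h hmem
    rw [LinearMap.mem_ker, map_sub, map_smul, smul_eq_mul] at h2
    rw [LinearMap.smul_apply, smul_eq_mul]
    have : φ u = ψ u / ψ w * φ w := by linarith
    rw [this]; ring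

namespace Arrangement

variable {d : ℕ} {A : Arrangement d}

variable (A) in
/-- the full sign vectors of the arrangement -/
def T : Set (Finset (Fin A.n)) := {N | ∃ x, A.Gen x ∧ A.neg x = N}

open Classical in
variable (A) in
/-- hyperplanes other than the `i`-th containing the intersection of the `i`-th and `j`-th -/
noncomputable def cls (i j : Fin A.n) : Finset (Fin A.n) :=
  Finset.univ.filter (fun l => l ≠ i ∧ ∃ c c' : ℝ, A.f l = c • A.f i + c' • A.f j)

theorem mem_cls {i j l : Fin A.n} :
    l ∈ A.cls i j ↔ l ≠ i ∧ ∃ c c' : ℝ, A.f l = c • A.f i + c' • A.f j := by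
  simp [cls]

variable (A) in
def Big (i j : Fin A.n) : Prop := A.n ≤ 2 * ((A.cls i j).card + 1)

/-- generic points of the `i`-th hyperplane -/
def WGen (i : Fin A.n) (z : Fin (d + 1) → ℝ) : Prop := A.f i z = 0 ∧ ∀ j, j ≠ i → A.f j z ≠ 0

theorem WGen.neg {i : Fin A.n} {z : Fin (d + 1) → ℝ} (hz : WGen i z) : WGen i (-z) := by
  refine ⟨by rw [map_neg, hz.1, neg_zero], fun j hj => ?_⟩
  rw [map_neg, neg_ne_zero]
  exact hz.2 j hj

theorem WGen.mem_T {i : Fin A.n} {z : Fin (d + 1) → ℝ} (hz : WGen i z) :
    A.neg z ∈ A.T ∧ symmDiff (A.neg z) {i} ∈ A.T := by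
  obtain ⟨w, hw⟩ : ∃ w, 0 < A.f i w := by
    obtain ⟨w, hw⟩ : ∃ w, A.f i w ≠ 0 := by
      by_contra hcon
      push Not at hcon
      exact A.f_ne_zero i (LinearMap.ext (by simpa using hcon))
    rcases lt_or_gt_of_ne hw with h | h
    · exact ⟨-w, by rw [map_neg]; linarith⟩
    · exact ⟨w, h⟩
  have key : ∀ v, A.f i v ≠ 0 → ∃ y, A.Gen y ∧ (∀ j, j ≠ i → (A.f j y < 0 ↔ A.f j z < 0)) ∧
      (A.f i y < 0 ↔ A.f i v < 0) := by
    intro v hv
    have hev : ∀ᶠ ε in 𝓝[>] (0 : ℝ), ∀ j, SignType.sign (A.f j (z + ε • v)) =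
        if A.f j z = 0 then SignType.sign (A.f j v) else SignType.sign (A.f j z) := by
      rw [eventually_all]
      exact fun j => ev_sign (A.f j) z v
    obtain ⟨ε, hε⟩ := hev.exists
    refine ⟨z + ε • v, ?_, ?_, ?_⟩
    · intro j h0
      have h1 := hε j
      rw [h0, sign_zero] at h1
      by_cases hji : j = i
      · subst hji
        rw [if_pos hz.1, eq_comm, sign_eq_zero_iff] at h1
        exact hv h1
      · rw [if_neg (hz.2 j hji), eq_comm, sign_eq_zero_iff] at h1
        exact hz.2 j hji h1
    · intro j hji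
      have h1 := hε j
      rw [if_neg (hz.2 j hji)] at h1
      rw [← sign_eq_neg_one_iff, h1, sign_eq_neg_one_iff]
    · have h1 := hε i
      rw [if_pos hz.1] at h1
      rw [← sign_eq_neg_one_iff, h1, sign_eq_neg_one_iff]
  constructor
  · obtain ⟨y, hy, hy1, hy2⟩ := key w hw.ne'
    refine ⟨y, hy, ?_⟩
    ext j
    rw [mem_neg, mem_neg]
    by_cases hji : j = i
    · subst hji
      rw [hy2, hz.1]
      constructor <;> intro h <;> linarith
    · exact hy1 j hji
  · obtain ⟨y, hy, hy1, hy2⟩ := key (-w) (by rw [map_neg, neg_ne_zero]; exact hw.ne')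
    refine ⟨y, hy, ?_⟩
    ext j
    rw [Finset.mem_symmDiff, mem_neg, mem_neg, Finset.mem_singleton]
    by_cases hji : j = i
    · subst hji
      rw [hy2, hz.1, map_neg]
      simp [hw]
    · rw [hy1 j hji]
      tauto

theorem exists_WGen {i : Fin A.n} {P : Finset (Fin A.n)} (hn : 2 ≤ A.n) (hP : P ∈ A.T)
    (hP' : symmDiff P {i} ∈ A.T) : ∃ z, WGen i z ∧ A.neg z = P.erase i := by
  obtain ⟨x, hx, rfl⟩ := hP
  obtain ⟨y, hy, hxy⟩ := hP'
  obtain ⟨z, -, hzi, hzj, hzs⟩ := exists_wall hn hx hy (i := i) (by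
    rw [hxy, ← symmDiff_assoc, symmDiff_self, bot_symmDiff])
  refine ⟨z, ⟨hzi, hzj⟩, ?_⟩
  ext j
  rw [Finset.mem_erase, mem_neg, mem_neg]
  by_cases hji : j = i
  · subst hji
    rw [hzi]
    simp
  · rw [← sign_eq_neg_one_iff, (hzs j hji).1, sign_eq_neg_one_iff]
    tauto

/-- gallery step inside a hyperplane -/
theorem exists_wall_step {i : Fin A.n} {z z' : Fin (d + 1) → ℝ} (hz : WGen i z)
    (hz' : WGen i z') (hne : A.neg z ≠ A.neg z') :
    ∃ z1, WGen i z1 ∧ ∃ j, j ≠ i ∧ j ∈ symmDiff (A.neg z) (A.neg z') ∧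
      symmDiff (A.neg z) (A.neg z1) = A.cls i j ∧
      A.cls i j ⊆ symmDiff (A.neg z) (A.neg z') := by
  have hprod : ∀ u v, WGen i u → WGen i v → ∀ l, l ≠ i →
      (A.f l u * A.f l v < 0 ↔ l ∈ symmDiff (A.neg u) (A.neg v)) := by
    intro u v hu hv l hl
    rw [Finset.mem_symmDiff, mem_neg, mem_neg]
    rcases lt_or_gt_of_ne (hu.2 l hl) with h1 | h1 <;>
      rcases lt_or_gt_of_ne (hv.2 l hl) with h2 | h2
    · constructor
      · intro h; nlinarith [mul_pos_of_neg_of_neg h1 h2]
      · rintro (⟨-, h⟩ | ⟨-, h⟩)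
        · exact absurd h2 h
        · exact absurd h1 h
    · constructor
      · intro _; left; exact ⟨h1, by linarith⟩
      · intro _; exact mul_neg_of_neg_of_pos h1 h2
    · constructor
      · intro _; right; exact ⟨h2, by linarith⟩
      · intro _; exact mul_neg_of_pos_of_neg h1 h2
    · constructor
      · intro h; nlinarith [mul_pos h1 h2]
      · rintro (⟨h, -⟩ | ⟨h, -⟩) <;> linarith
  have hni : ∀ u, WGen i u → i ∉ A.neg u := by
    intro u hu
    rw [mem_neg, hu.1]
    exact lt_irrefl _
  have hni' : ∀ u v, WGen i u → WGen i v → i ∉ symmDiff (A.neg u) (A.neg v) := by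
    intro u v hu hv
    rw [Finset.mem_symmDiff]
    have := hni u hu
    have := hni v hv
    tauto
  obtain ⟨j0, hj0⟩ : ∃ j, j ∈ symmDiff (A.neg z) (A.neg z') := by
    by_contra hcon
    push Not at hcon
    apply hne
    exact symmDiff_eq_bot.mp (Finset.eq_empty_of_forall_notMem hcon)
  have hj0i : j0 ≠ i := by
    rintro rfl
    exact hni' z z' hz hz' hj0
  let g : {j : Fin A.n // j ≠ i} → (LinearMap.ker (A.f i)) →ₗ[ℝ] ℝ :=
    fun j => (A.f j.1).comp (LinearMap.ker (A.f i)).subtype
  have hgapp : ∀ (j : {j : Fin A.n // j ≠ i}) (u : LinearMap.ker (A.f i)),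
      g j u = A.f j.1 u.1 := fun j u => rfl
  have hpar : ∀ l j : {j : Fin A.n // j ≠ i}, (∃ c : ℝ, g l = c • g j) ↔ l.1 ∈ A.cls i j.1 := by
    intro l j
    rw [mem_cls]
    constructor
    · rintro ⟨c, hc⟩
      refine ⟨l.2, ?_⟩
      obtain ⟨c', hc'⟩ := exists_smul_of_ker_le (φ := A.f l.1 - c • A.f j.1) (ψ := A.f i) (by
        intro u hu
        have := LinearMap.congr_fun hc ⟨u, hu⟩
        rw [hgapp, LinearMap.smul_apply, hgapp] at this
        rw [LinearMap.mem_ker, LinearMap.sub_apply, LinearMap.smul_apply, this]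
        simp)
      exact ⟨c', c, by rw [← hc', sub_add_cancel]⟩
    · rintro ⟨-, c, c', h⟩
      refine ⟨c', LinearMap.ext fun u => ?_⟩
      rw [hgapp, LinearMap.smul_apply, hgapp, h, LinearMap.add_apply, LinearMap.smul_apply,
        LinearMap.smul_apply]
      have : A.f i u.1 = 0 := u.2
      rw [this, smul_zero, zero_add]
  obtain ⟨z1, hz1, j, hj, hl⟩ := gallery_step g (x := ⟨z, hz.1⟩) (y := ⟨z', hz'.1⟩)
    (fun j => hz.2 j.1 j.2) (fun j => hz'.2 j.1 j.2) ⟨j0, hj0i⟩
    ((hprod z z' hz hz' j0 hj0i).2 hj0)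
  have hz1W : WGen i z1.1 := ⟨z1.2, fun j hj => hz1 ⟨j, hj⟩⟩
  refine ⟨z1.1, hz1W, j.1, j.2, (hprod z z' hz hz' j.1 j.2).1 hj, ?_, ?_⟩
  · ext l
    by_cases hli : l = i
    · subst hli
      constructor
      · intro h; exact absurd h (hni' _ _ hz hz1W)
      · intro h; rw [mem_cls] at h; exact absurd rfl h.1
    · rw [← hprod z z1.1 hz hz1W l hli, ← hpar ⟨l, hli⟩ j, ← hl ⟨l, hli⟩]
      exact Iff.rfl
  · intro l hl2
    have hli : l ≠ i := (mem_cls.1 hl2).1
    rw [← hprod z z' hz hz' l hli]
    obtain ⟨c, hc⟩ := (hpar ⟨l, hli⟩ j).2 hl2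
    have e1 : A.f l z = c * A.f j.1 z := LinearMap.congr_fun hc ⟨z, hz.1⟩
    have e2 : A.f l z' = c * A.f j.1 z' := LinearMap.congr_fun hc ⟨z', hz'.1⟩
    have hc0 : c ≠ 0 := by
      rintro rfl
      apply hz.2 l hli
      rw [e1, zero_mul]
    have hj' : A.f j.1 z * A.f j.1 z' < 0 := hj
    rw [e1, e2]
    have : c * A.f j.1 z * (c * A.f j.1 z') = (c * c) * (A.f j.1 z * A.f j.1 z') := by ring
    rw [this]
    exact mul_neg_of_pos_of_neg (mul_self_pos.mpr hc0) hj'

/-- connectivity of the walls in one hyperplane, away from a big codimension two flat -/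
theorem conn_aux {i : Fin A.n} (Pr : Finset (Fin A.n) → Prop)
    (hc : ∀ P Q, P ∈ A.T → symmDiff P {i} ∈ A.T → Q ∈ A.T → symmDiff Q {i} ∈ A.T →
      (∃ j, j ≠ i ∧ symmDiff P Q = A.cls i j ∧ ¬ A.Big i j) → Pr P → Pr Q) :
    ∀ k : ℕ, ∀ z z' : Fin (d + 1) → ℝ, WGen i z → WGen i z' →
      (symmDiff (A.neg z) (A.neg z')).card = k →
      (∀ j ∈ symmDiff (A.neg z) (A.neg z'), ¬ A.Big i j) → Pr (A.neg z) → Pr (A.neg z') := by
  intro k
  induction k using Nat.strong_induction_on with
  | _ k ih =>
    intro z z' hz hz' hk hnb hPr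
    by_cases hne : A.neg z = A.neg z'
    · rwa [← hne]
    · obtain ⟨z1, hz1, j, hji, hjmem, hj1, hj2⟩ := exists_wall_step hz hz' hne
      have h1 : Pr (A.neg z1) :=
        hc _ _ hz.mem_T.1 hz.mem_T.2 hz1.mem_T.1 hz1.mem_T.2 ⟨j, hji, hj1, hnb j hjmem⟩ hPr
      have hsd : symmDiff (A.neg z1) (A.neg z') =
          symmDiff (A.neg z) (A.neg z') \ A.cls i j := by
        have e : symmDiff (A.neg z1) (A.neg z') =
            symmDiff (A.cls i j) (symmDiff (A.neg z) (A.neg z')) := by
          rw [← hj1, symmDiff_comm (A.neg z) (A.neg z1), symmDiff_assoc,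
            ← symmDiff_assoc (A.neg z) (A.neg z) (A.neg z'), symmDiff_self, bot_symmDiff]
        rw [e, symmDiff_of_le hj2]
      have hjcls : j ∈ A.cls i j := mem_cls.2 ⟨hji, 0, 1, by simp⟩
      have hlt : (symmDiff (A.neg z1) (A.neg z')).card < k := by
        rw [hsd, ← hk]
        apply Finset.card_lt_card
        rw [Finset.ssubset_iff_subset_ne]
        refine ⟨Finset.sdiff_subset, ?_⟩
        intro heq
        have : j ∈ symmDiff (A.neg z) (A.neg z') \ A.cls i j := by rw [heq]; exact hjmem
        exact (Finset.mem_sdiff.1 this).2 hjcls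
      apply ih _ hlt z1 z' hz1 hz' rfl _ h1
      intro l hl
      rw [hsd] at hl
      exact hnb l (Finset.mem_sdiff.1 hl).1

theorem conn {i : Fin A.n} (hn : 2 ≤ A.n) (Pr : Finset (Fin A.n) → Prop)
    (ha : ∀ P, P ∈ A.T → symmDiff P {i} ∈ A.T → Pr P → Pr (symmDiff P {i}))
    (hb : ∀ P, P ∈ A.T → symmDiff P {i} ∈ A.T → Pr P → Pr Pᶜ)
    (hc : ∀ P Q, P ∈ A.T → symmDiff P {i} ∈ A.T → Q ∈ A.T → symmDiff Q {i} ∈ A.T →
      (∃ j, j ≠ i ∧ symmDiff P Q = A.cls i j ∧ ¬ A.Big i j) → Pr P → Pr Q)
    (hbig : ∀ j j', j ≠ i → j' ≠ i → A.Big i j → A.Big i j' → j' ∈ A.cls i j)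
    (P Q : Finset (Fin A.n)) (hP : P ∈ A.T) (hP' : symmDiff P {i} ∈ A.T)
    (hQ : Q ∈ A.T) (hQ' : symmDiff Q {i} ∈ A.T) (h : Pr P) : Pr Q := by
  -- reduction to walls
  have herase : ∀ P, P ∈ A.T → symmDiff P {i} ∈ A.T → (Pr P ↔ Pr (P.erase i)) := by
    intro P hP hP'
    by_cases hi : i ∈ P
    · have e : P.erase i = symmDiff P {i} := by
        ext j
        rw [Finset.mem_erase, Finset.mem_symmDiff, Finset.mem_singleton]
        by_cases hj : j = i
        · subst hj; tauto
        · tauto
      rw [e]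
      constructor
      · exact ha P hP hP'
      · intro h1
        have := ha _ hP' (by rwa [symmDiff_singleton_symmDiff]) h1
        rwa [symmDiff_singleton_symmDiff] at this
    · rw [Finset.erase_eq_of_notMem hi]
  obtain ⟨z, hz, hzP⟩ := exists_WGen hn hP hP'
  obtain ⟨z', hz', hzQ⟩ := exists_WGen hn hQ hQ'
  rw [herase P hP hP', ← hzP] at h
  rw [herase Q hQ hQ', ← hzQ]
  have hnegneg : A.neg (-z') = (symmDiff (A.neg z') {i})ᶜ := by
    ext j
    rw [Finset.mem_compl, Finset.mem_symmDiff, mem_neg, mem_neg, map_neg, Finset.mem_singleton]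
    by_cases hj : j = i
    · subst hj
      rw [hz'.1]; simp
    · have := hz'.2 j hj
      rcases lt_or_gt_of_ne this with h1 | h1
      · have h2 : ¬ (-(A.f j z') < 0) := by linarith
        tauto
      · have h2 : -(A.f j z') < 0 := by linarith
        have h3 : ¬ (A.f j z' < 0) := by linarith
        tauto
  have hback : Pr (A.neg (-z')) → Pr (A.neg z') := by
    intro h1
    rw [hnegneg] at h1
    have h2 := hz'.mem_T
    have h3 : (symmDiff (A.neg z') {i})ᶜ ∈ A.T ∧ symmDiff ((symmDiff (A.neg z') {i})ᶜ) {i} ∈ A.T := by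
      rw [← hnegneg]
      exact hz'.neg.mem_T
    have h4 := hb _ h3.1 h3.2 h1
    rw [compl_compl] at h4
    have h5 := ha _ h2.2 (by rw [symmDiff_singleton_symmDiff]; exact h2.1) h4
    rwa [symmDiff_singleton_symmDiff] at h5
  by_cases hex : ∃ j0, j0 ≠ i ∧ A.Big i j0
  · obtain ⟨j0, hj0i, hj0⟩ := hex
    -- big classes do not separate points on the same side
    have hside : ∀ v, WGen i v → 0 < A.f j0 z * A.f j0 v →
        ∀ j ∈ symmDiff (A.neg z) (A.neg v), ¬ A.Big i j := by
      intro v hv hpos j hj hB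
      have hji : j ≠ i := by
        rintro rfl
        rw [Finset.mem_symmDiff, mem_neg, mem_neg, hz.1, hv.1] at hj
        simp at hj
      obtain ⟨-, c, c', hcc⟩ := mem_cls.1 (hbig j0 j hj0i hji hj0 hB)
      have e1 : A.f j z = c' * A.f j0 z := by
        rw [hcc, LinearMap.add_apply, LinearMap.smul_apply, LinearMap.smul_apply, hz.1]
        simp
      have e2 : A.f j v = c' * A.f j0 v := by
        rw [hcc, LinearMap.add_apply, LinearMap.smul_apply, LinearMap.smul_apply, hv.1]
        simp
      have hprod : 0 ≤ A.f j z * A.f j v := by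
        rw [e1, e2]
        have : c' * A.f j0 z * (c' * A.f j0 v) = (c' * c') * (A.f j0 z * A.f j0 v) := by ring
        rw [this]
        exact mul_nonneg (mul_self_nonneg _) hpos.le
      rw [Finset.mem_symmDiff, mem_neg, mem_neg] at hj
      rcases hj with ⟨h1, h2⟩ | ⟨h1, h2⟩
      · have h3 : 0 < A.f j v := lt_of_le_of_ne (not_lt.1 h2) (Ne.symm (hv.2 j hji))
        nlinarith [mul_neg_of_neg_of_pos h1 h3]
      · have h3 : 0 < A.f j z := lt_of_le_of_ne (not_lt.1 h2) (Ne.symm (hz.2 j hji))
        nlinarith [mul_neg_of_pos_of_neg h3 h1]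
    have hne : A.f j0 z * A.f j0 z' ≠ 0 := mul_ne_zero (hz.2 j0 hj0i) (hz'.2 j0 hj0i)
    rcases lt_or_gt_of_ne hne with hlt | hgt
    · apply hback
      refine conn_aux Pr hc _ z (-z') hz hz'.neg rfl ?_ h
      apply hside (-z') hz'.neg
      rw [map_neg]
      linarith
    · exact conn_aux Pr hc _ z z' hz hz' rfl (hside z' hz' hgt) h
  · push Not at hex
    refine conn_aux Pr hc _ z z' hz hz' rfl ?_ h
    intro j hj
    apply hex
    rintro rfl
    rw [Finset.mem_symmDiff, mem_neg, mem_neg, hz.1, hz'.1] at hj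
    simp at hj

/-- The main reconstruction step: outside the exceptional case all walls of a hyperplane get the
same class in any other arrangement with the same cell graph. -/
theorem classes_of_iso {A B : Arrangement d} (hA : 3 ≤ A.n) (hB : 3 ≤ B.n)
    (φ : A.cellGraph ≃g B.cellGraph)
    (hbig : ∀ i j j' : Fin A.n, j ≠ i → j' ≠ i → A.Big i j → A.Big i j' → j' ∈ A.cls i j) :
    ∀ i : Fin A.n, ∃ α : Fin B.n, ∀ P ∈ (A.model hA).T, symmDiff P {i} ∈ (A.model hA).T →
      (B.model hB).Cross (φ ((A.model hA).c P)) (φ ((A.model hA).c (symmDiff P {i}))) α := by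
  intro i
  set m := A.model hA with hm
  set m' := B.model hB with hm'
  have hcard := card_eq_of_iso m m' φ
  obtain ⟨K, hK, hK'⟩ := m.exists_crossing i
  obtain ⟨α, hα⟩ := m'.exists_cross (φ.map_rel_iff.mpr (m.adj_singleton hK hK'))
  refine ⟨α, ?_⟩
  intro P hP hP'
  refine conn (A := A) (i := i) (by omega)
    (fun P => m'.Cross (φ (m.c P)) (φ (m.c (symmDiff P {i}))) α) ?_ ?_ ?_ (hbig i)
    K P hK hK' hP hP' hα
  · intro P hP hP' h
    have := h.symm
    rwa [symmDiff_singleton_symmDiff]
  · intro P hP hP' h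
    rw [m.c_compl hP, compl_symmDiff_left, m.c_compl hP']
    exact h
  · rintro P Q hP hP' hQ hQ' ⟨j, hji, hj, hnb⟩ h
    refine same_class m m' φ hcard hP hP' hQ hQ' ?_ ?_ h
    · rw [hj, mem_cls]
      tauto
    · rw [hj, Fintype.card_fin]
      unfold Big at hnb
      omega

end Arrangement

namespace Arrangement

variable {d : ℕ} {A B : Arrangement d}

/-- `v` realises the sign vector of `x` after relabelling by `σ` and reorienting by `η` -/
def Rel (A B : Arrangement d) (σ : Fin A.n ≃ Fin B.n) (η : Fin A.n → SignType)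
    (x v : Fin (d + 1) → ℝ) : Prop := ∀ i, B.signs v (σ i) = η i * A.signs x i

theorem Rel.neg {σ : Fin A.n ≃ Fin B.n} {η : Fin A.n → SignType} {x v : Fin (d + 1) → ℝ}
    (h : Rel A B σ η x v) : Rel A B σ η (-x) (-v) := by
  intro i
  rw [A.signs_neg, B.signs_neg, Pi.neg_apply, Pi.neg_apply, h i, mul_neg]

theorem Rel.symm {σ : Fin A.n ≃ Fin B.n} {η : Fin A.n → SignType} (hη : ∀ i, η i * η i = 1)
    {x v : Fin (d + 1) → ℝ} (h : Rel A B σ η x v) :
    Rel B A σ.symm (fun k => η (σ.symm k)) v x := by
  intro k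
  have := h (σ.symm k)
  rw [Equiv.apply_symm_apply] at this
  rw [this, ← mul_assoc, hη, one_mul]

theorem Rel.signs_eq {σ : Fin A.n ≃ Fin B.n} {η : Fin A.n → SignType} (hη : ∀ i, η i * η i = 1)
    {x v x' v' : Fin (d + 1) → ℝ} (h : Rel A B σ η x v) (h' : Rel A B σ η x' v') :
    A.signs x = A.signs x' ↔ B.signs v = B.signs v' := by
  constructor
  · intro he
    ext k
    have e1 := h (σ.symm k)
    have e2 := h' (σ.symm k)
    rw [Equiv.apply_symm_apply] at e1 e2
    rw [e1, e2, he]
  · intro he
    ext i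
    have e1 := h i
    have e2 := h' i
    rw [he, e2] at e1
    have := congrArg (fun s => η i * s) e1
    simp only [← mul_assoc, hη, one_mul] at this
    exact this.symm

theorem Rel.sle_iff {σ : Fin A.n ≃ Fin B.n} {η : Fin A.n → SignType} (hη : ∀ i, η i * η i = 1)
    {x v x' v' : Fin (d + 1) → ℝ} (h : Rel A B σ η x v) (h' : Rel A B σ η x' v') :
    sle (A.signs x) (A.signs x') ↔ sle (B.signs v) (B.signs v') := by
  constructor
  · intro he k hk
    have e1 := h (σ.symm k)
    have e2 := h' (σ.symm k)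
    rw [Equiv.apply_symm_apply] at e1 e2
    rw [e1, e2, he (σ.symm k) (by
      intro h0
      rw [h0, mul_zero] at e1
      exact hk e1)]
  · intro he i hi
    have e1 := h i
    have e2 := h' i
    have hne : B.signs v (σ i) ≠ 0 := by
      intro h0
      apply hi
      have := congrArg (fun s => η i * s) e1
      simp only [← mul_assoc, hη, one_mul, h0, mul_zero] at this
      exact this.symm
    rw [he (σ i) hne, e2] at e1
    have := congrArg (fun s => η i * s) e1
    simp only [← mul_assoc, hη, one_mul] at this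
    exact this.symm

theorem eq_zero_iff_signs (A : Arrangement d) (x : Fin (d + 1) → ℝ) : x = 0 ↔ A.signs x = 0 := by
  constructor
  · rintro rfl
    ext i
    rw [signs_apply, map_zero, sign_zero]; rfl
  · intro h
    by_contra hx
    exact A.signs_ne_zero hx h

theorem Rel.ne_zero_iff {σ : Fin A.n ≃ Fin B.n} {η : Fin A.n → SignType}
    (hη : ∀ i, η i * η i = 1) {x v : Fin (d + 1) → ℝ} (h : Rel A B σ η x v) :
    x ≠ 0 ↔ v ≠ 0 := by
  rw [not_iff_not, A.eq_zero_iff_signs, B.eq_zero_iff_signs]
  have h0 : Rel A B σ η 0 0 := by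
    intro i
    rw [signs_apply, signs_apply, map_zero (B.f _), map_zero (A.f _), sign_zero, mul_zero]
  have e1 : A.signs 0 = 0 := (A.eq_zero_iff_signs 0).1 rfl
  have e2 : B.signs 0 = 0 := (B.eq_zero_iff_signs 0).1 rfl
  have := h.signs_eq hη h0
  rw [e1, e2] at this
  exact this

theorem Rel.face_eq {σ : Fin A.n ≃ Fin B.n} {η : Fin A.n → SignType} (hη : ∀ i, η i * η i = 1)
    {x v x' v' : Fin (d + 1) → ℝ} (h : Rel A B σ η x v) (h' : Rel A B σ η x' v') (hx : x ≠ 0) :
    A.face x = A.face x' ↔ B.face v = B.face v' := by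
  rw [A.face_eq_iff hx, B.face_eq_iff ((h.ne_zero_iff hη).1 hx), h.signs_eq hη h',
    ← A.signs_neg, ← B.signs_neg, h.signs_eq hη h'.neg]

/-- a sign-preserving correspondence gives an isomorphism of the face posets -/
theorem equiv_of_rel (σ : Fin A.n ≃ Fin B.n) (η : Fin A.n → SignType) (hη : ∀ i, η i * η i = 1)
    (h1 : ∀ x, ∃ v, Rel A B σ η x v) (h2 : ∀ v, ∃ x, Rel A B σ η x v) :
    Equivalent A B := by
  choose r hr using h1
  let x : A.Face → Fin (d + 1) → ℝ := fun F => F.2.choose
  have hx0 : ∀ F : A.Face, x F ≠ 0 := fun F => F.2.choose_spec.1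
  have hxF : ∀ F : A.Face, F.1 = A.face (x F) := fun F => F.2.choose_spec.2
  let φ : A.Face → B.Face := fun F =>
    ⟨B.face (r (x F)), r (x F), ((hr (x F)).ne_zero_iff hη).1 (hx0 F), rfl⟩
  have hφ : ∀ F : A.Face, (φ F).1 = B.face (r (x F)) := fun F => rfl
  have hinj : Function.Injective φ := by
    intro F G hFG
    have h3 : B.face (r (x F)) = B.face (r (x G)) := congrArg Subtype.val hFG
    rw [← (hr (x F)).face_eq hη (hr (x G)) (hx0 F)] at h3
    apply Subtype.ext
    rw [hxF F, hxF G, h3]
  have hsurj : Function.Surjective φ := by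
    rintro ⟨G, v, hv, rfl⟩
    obtain ⟨y, hy⟩ := h2 v
    have hy0 : y ≠ 0 := (hy.ne_zero_iff hη).2 hv
    let Fy : A.Face := ⟨A.face y, y, hy0, rfl⟩
    refine ⟨Fy, ?_⟩
    apply Subtype.ext
    have h3 : A.face y = A.face (x Fy) := hxF Fy
    have h4 : B.face (r (x Fy)) = B.face v := ((hy.face_eq hη (hr _) hy0).1 h3).symm
    exact h4
  refine ⟨Equiv.ofBijective φ ⟨hinj, hsurj⟩, ?_⟩
  intro F G
  have e1 : A.InClosure F G ↔ A.face (x F) ⊆ closure (A.face (x G)) := by
    rw [← hxF F, ← hxF G]; exact Iff.rfl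
  have e2 : B.InClosure ((Equiv.ofBijective φ ⟨hinj, hsurj⟩) F)
      ((Equiv.ofBijective φ ⟨hinj, hsurj⟩) G) ↔
      B.face (r (x F)) ⊆ closure (B.face (r (x G))) := Iff.rfl
  rw [e1, e2, A.face_subset_closure_iff (hx0 F) (hx0 G),
    B.face_subset_closure_iff (((hr (x F)).ne_zero_iff hη).1 (hx0 F))
      (((hr (x G)).ne_zero_iff hη).1 (hx0 G)),
    (hr (x F)).sle_iff hη (hr (x G)), ← A.signs_neg, ← B.signs_neg,
    (hr (x F)).sle_iff hη (hr (x G)).neg]

/-- extending a correspondence from full sign vectors to all sign vectors -/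
theorem extend_rel (σ : Fin A.n ≃ Fin B.n) (η : Fin A.n → SignType) (hη : ∀ i, η i * η i = 1)
    (h1 : ∀ x, A.Gen x → ∃ v, B.Gen v ∧ Rel A B σ η x v)
    (h2 : ∀ v, B.Gen v → ∃ x, A.Gen x ∧ Rel A B σ η x v) :
    ∀ x, ∃ v, Rel A B σ η x v := by
  intro x
  obtain ⟨v, hv⟩ := covector_of_compositions B.f B.f_ne_zero
    (fun k => η (σ.symm k) * A.signs x (σ.symm k)) (by
    intro y hy
    obtain ⟨u, hu, huy⟩ := h2 y hy
    have hev : ∀ᶠ ε in 𝓝[>] (0 : ℝ), ∀ i, SignType.sign (A.f i (x + ε • u)) =
        if A.f i x = 0 then SignType.sign (A.f i u) else SignType.sign (A.f i x) := by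
      rw [eventually_all]
      exact fun i => ev_sign (A.f i) x u
    obtain ⟨ε, hε⟩ := hev.exists
    have hgen : A.Gen (x + ε • u) := by
      intro i h0
      have h3 := hε i
      rw [h0, sign_zero] at h3
      by_cases hi : A.f i x = 0
      · rw [if_pos hi, eq_comm, sign_eq_zero_iff] at h3
        exact hu i h3
      · rw [if_neg hi, eq_comm, sign_eq_zero_iff] at h3
        exact hi h3
    obtain ⟨w, hw, hwr⟩ := h1 _ hgen
    refine ⟨w, ?_⟩
    intro k
    obtain ⟨i, rfl⟩ := σ.surjective k
    have e1 := hwr i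
    have e2 := huy i
    simp only [Equiv.symm_apply_apply]
    rw [signs_apply, signs_apply, hε i] at e1
    rw [signs_apply, signs_apply] at e2
    rw [e1, e2, signs_apply]
    by_cases hi : A.f i x = 0
    · rw [if_pos hi, hi, sign_zero, mul_zero, if_pos rfl]
    · rw [if_neg hi, if_neg]
      intro h0
      have := congrArg (fun s => η i * s) h0
      simp only [← mul_assoc, hη, one_mul, mul_zero, sign_eq_zero_iff] at this
      exact hi this)
  refine ⟨v, fun i => ?_⟩
  have := hv (σ i)
  simp only [Equiv.symm_apply_apply] at this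
  exact this

theorem equiv_of_generic (σ : Fin A.n ≃ Fin B.n) (η : Fin A.n → SignType)
    (hη : ∀ i, η i * η i = 1)
    (h1 : ∀ x, A.Gen x → ∃ v, B.Gen v ∧ Rel A B σ η x v)
    (h2 : ∀ v, B.Gen v → ∃ x, A.Gen x ∧ Rel A B σ η x v) :
    Equivalent A B := by
  apply equiv_of_rel σ η hη (extend_rel σ η hη h1 h2)
  have hη' : ∀ k, η (σ.symm k) * η (σ.symm k) = 1 := fun k => hη _
  have hback : ∀ x v, Rel B A σ.symm (fun k => η (σ.symm k)) v x → Rel A B σ η x v := by
    intro x v h
    have := h.symm hη'
    intro i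
    have h3 := this i
    simpa using h3
  intro v
  obtain ⟨x, hx⟩ := extend_rel (A := B) (B := A) σ.symm (fun k => η (σ.symm k)) hη'
    (fun v hv => by
      obtain ⟨x, hx, hr⟩ := h2 v hv
      exact ⟨x, hx, hr.symm hη⟩)
    (fun x hx => by
      obtain ⟨v, hv, hr⟩ := h1 x hx
      exact ⟨v, hv, hr.symm hη⟩) v
  exact ⟨x, hback x v hx⟩

/-- equality of the sets of full sign vectors (up to relabelling and reorientation) gives an
isomorphism of the face posets -/
theorem equiv_of_topes (σ : Fin A.n ≃ Fin B.n) (E : Finset (Fin B.n))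
    (h : ∀ N : Finset (Fin A.n), N ∈ A.T ↔ symmDiff (N.map σ.toEmbedding) E ∈ B.T) :
    Equivalent A B := by
  classical
  have key : ∀ x v, A.Gen x → B.Gen v →
      B.neg v = symmDiff ((A.neg x).map σ.toEmbedding) E →
      Rel A B σ (fun i => if σ i ∈ E then -1 else 1) x v := by
    intro x v hx hv he i
    have h1 : σ i ∈ B.neg v ↔ σ i ∈ symmDiff ((A.neg x).map σ.toEmbedding) E := by rw [he]
    rw [Finset.mem_symmDiff, Finset.mem_map_equiv, Equiv.symm_apply_apply, mem_neg, mem_neg] at h1
    rw [signs_apply, signs_apply]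
    have h2 := hx i
    have h3 := hv (σ i)
    by_cases hE : σ i ∈ E
    · simp only [hE, if_true]
      rcases lt_or_gt_of_ne h2 with h4 | h4
      · rw [sign_neg h4]
        rcases lt_or_gt_of_ne h3 with h5 | h5
        · have := h1.1 h5
          tauto
        · rw [sign_pos h5]; rfl
      · rw [sign_pos h4]
        rcases lt_or_gt_of_ne h3 with h5 | h5
        · rw [sign_neg h5]; rfl
        · have h6 : ¬ (A.f i x < 0) := by linarith
          have h7 : ¬ (B.f (σ i) v < 0) := by linarith
          tauto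
    · simp only [hE, if_false]
      rcases lt_or_gt_of_ne h2 with h4 | h4
      · rw [sign_neg h4]
        rcases lt_or_gt_of_ne h3 with h5 | h5
        · rw [sign_neg h5]; rfl
        · have h7 : ¬ (B.f (σ i) v < 0) := by linarith
          tauto
      · rw [sign_pos h4]
        rcases lt_or_gt_of_ne h3 with h5 | h5
        · have h6 : ¬ (A.f i x < 0) := by linarith
          tauto
        · rw [sign_pos h5]; rfl
  apply equiv_of_generic σ (fun i => if σ i ∈ E then -1 else 1)
  · intro i
    by_cases hE : σ i ∈ E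
    · simp only [hE, if_true]; rfl
    · simp only [hE, if_false]; rfl
  · intro x hx
    obtain ⟨v, hv, hve⟩ := (h (A.neg x)).1 ⟨x, hx, rfl⟩
    exact ⟨v, hv, key x v hx hv hve⟩
  · intro v hv
    have h1 : ((symmDiff (B.neg v) E).map σ.symm.toEmbedding) ∈ A.T := by
      rw [h]
      refine ⟨v, hv, ?_⟩
      rw [Finset.map_map]
      have : σ.symm.toEmbedding.trans σ.toEmbedding = Function.Embedding.refl _ := by
        ext b; simp
      rw [this, Finset.map_refl, symmDiff_assoc, symmDiff_self, symmDiff_bot]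
    obtain ⟨x, hx, hxe⟩ := h1
    refine ⟨x, hx, key x v hx hv ?_⟩
    rw [hxe, Finset.map_map]
    have : σ.symm.toEmbedding.trans σ.toEmbedding = Function.Embedding.refl _ := by
      ext b; simp
    rw [this, Finset.map_refl, symmDiff_assoc, symmDiff_self, symmDiff_bot]

/-- the non-exceptional case -/
theorem equiv_of_iso_of_nonexceptional (hA : 3 ≤ A.n) (hB : 3 ≤ B.n)
    (φ : A.cellGraph ≃g B.cellGraph)
    (hbig : ∀ i j j' : Fin A.n, j ≠ i → j' ≠ i → A.Big i j → A.Big i j' → j' ∈ A.cls i j) :
    Equivalent A B := by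
  obtain ⟨σ, E, h⟩ := tope_equiv (A.model hA) (B.model hB) φ (classes_of_iso hA hB φ hbig)
  exact equiv_of_topes σ E h

end Arrangement

namespace Arrangement

variable {d : ℕ} (A : Arrangement d)

/-- Sanity check: a `d`-cell is the image in projective space of a connected component of the
complement of the hyperplanes. -/
theorem face_eq_components (x : Fin (d + 1) → ℝ) (hx : ∀ i, dotProduct (A.a i) x ≠ 0)
    (hx0 : x ≠ 0) :
    A.face x = connectedComponentIn {y | ∀ i, dotProduct (A.a i) y ≠ 0} x ∪
      connectedComponentIn {y | ∀ i, dotProduct (A.a i) y ≠ 0} (-x) := by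
  have hcont : ∀ i, Continuous (fun y : Fin (d + 1) → ℝ => A.f i y) :=
    fun i => LinearMap.continuous_of_finiteDimensional _
  have key : ∀ w : Fin (d + 1) → ℝ, A.Gen w →
      connectedComponentIn {y | ∀ i, dotProduct (A.a i) y ≠ 0} w =
        {y | A.signs y = A.signs w} := by
    intro w hw
    apply Set.Subset.antisymm
    · intro y hy
      have hpre := isPreconnected_connectedComponentIn
        (F := {y : Fin (d + 1) → ℝ | ∀ i, dotProduct (A.a i) y ≠ 0}) (x := w)
      have hsub := connectedComponentIn_subset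
        {y : Fin (d + 1) → ℝ | ∀ i, dotProduct (A.a i) y ≠ 0} w
      have hwmem := mem_connectedComponentIn (F := {y : Fin (d + 1) → ℝ |
        ∀ i, dotProduct (A.a i) y ≠ 0}) (x := w) hw
      change A.signs y = A.signs w
      ext i
      rw [signs_apply, signs_apply]
      have himg := hpre.image (fun y => A.f i y) (hcont i).continuousOn
      have h0 : (0 : ℝ) ∉ (fun y => A.f i y) ''
          connectedComponentIn {y | ∀ i, dotProduct (A.a i) y ≠ 0} w := by
        rintro ⟨z, hz, hz0⟩
        exact hsub hz i hz0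
      have hord := himg.ordConnected
      have hyi : A.f i y ∈ (fun y => A.f i y) ''
          connectedComponentIn {y | ∀ i, dotProduct (A.a i) y ≠ 0} w := ⟨y, hy, rfl⟩
      have hwi : A.f i w ∈ (fun y => A.f i y) ''
          connectedComponentIn {y | ∀ i, dotProduct (A.a i) y ≠ 0} w := ⟨w, hwmem, rfl⟩
      have hy0 : A.f i y ≠ 0 := hsub hy i
      rcases lt_or_gt_of_ne (hw i) with h1 | h1 <;> rcases lt_or_gt_of_ne hy0 with h2 | h2
      · rw [sign_neg h1, sign_neg h2]
      · exact absurd (hord.out hwi hyi ⟨h1.le, h2.le⟩) h0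
      · exact absurd (hord.out hyi hwi ⟨h2.le, h1.le⟩) h0
      · rw [sign_pos h1, sign_pos h2]
    · apply IsPreconnected.subset_connectedComponentIn
      · apply Convex.isPreconnected
        intro u hu v hv a b ha hb hab
        change A.signs u = A.signs w at hu
        change A.signs v = A.signs w at hv
        change A.signs (a • u + b • v) = A.signs w
        rcases ha.eq_or_lt with h1 | h1
        · subst h1
          rw [zero_add] at hab
          rw [zero_smul, zero_add, hab, one_smul, hv]
        · rcases hb.eq_or_lt with h2 | h2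
          · subst h2
            rw [add_zero] at hab
            rw [zero_smul, add_zero, hab, one_smul, hu]
          · ext i
            have e1 := congrFun hu i
            have e2 := congrFun hv i
            rw [signs_apply, signs_apply] at e1 e2
            rw [signs_apply, signs_apply, map_add, map_smul, map_smul, smul_eq_mul, smul_eq_mul,
              sign_comb h1 h2 (e1.trans e2.symm), e1]
      · rfl
      · intro y hy i h0
        change A.signs y = A.signs w at hy
        have := congrFun hy i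
        rw [signs_apply, signs_apply] at this
        have h1 : A.f i y = 0 := h0
        rw [h1, sign_zero, eq_comm, sign_eq_zero_iff] at this
        exact hw i this
  have hg : A.Gen x := hx
  rw [key x hg, key (-x) hg.neg]
  ext y
  change (y ≠ 0 ∧ (A.signs y = A.signs x ∨ A.signs y = -A.signs x)) ↔
    (A.signs y = A.signs x ∨ A.signs y = A.signs (-x))
  rw [A.signs_neg]
  constructor
  · exact fun h => h.2
  · intro h
    refine ⟨?_, h⟩
    rcases h with h | h
    · exact A.ne_zero_of_signs hx0 h
    · rw [← A.signs_neg] at h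
      exact A.ne_zero_of_signs (neg_ne_zero.mpr hx0) h

end Arrangement

theorem order_match {q : ℕ} {s s' : Fin q → ℝ} (hs : StrictMono s) (hs' : StrictMono s')
    (h t : ℝ) : ∃ t' : ℝ, ∀ m, SignType.sign (t' + s' m * h) = SignType.sign (t + s m * h) := by
  have key : ∀ τ : ℝ, ∃ τ' : ℝ, ∀ m, SignType.sign (τ' + s' m) = SignType.sign (τ + s m) := by
    intro τ
    by_cases hex : ∃ m0, s m0 = -τ
    · obtain ⟨m0, hm0⟩ := hex
      refine ⟨-s' m0, fun m => ?_⟩
      have e : τ = - s m0 := by linarith
      rw [e]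
      rcases lt_trichotomy m m0 with h1 | h1 | h1
      · rw [sign_neg (by have := hs' h1; linarith), sign_neg (by have := hs h1; linarith)]
      · subst h1; simp
      · rw [sign_pos (by have := hs' h1; linarith), sign_pos (by have := hs h1; linarith)]
    · push Not at hex
      obtain ⟨r, hr1, hr2⟩ := Order.exists_between_finsets
        ((Finset.univ.filter (fun m => s m < -τ)).image s')
        ((Finset.univ.filter (fun m => -τ < s m)).image s') (by
          intro x hx y hy
          rw [Finset.mem_image] at hx hy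
          obtain ⟨a, ha, rfl⟩ := hx
          obtain ⟨b, hb, rfl⟩ := hy
          rw [Finset.mem_filter] at ha hb
          apply hs'
          exact hs.lt_iff_lt.1 (ha.2.trans hb.2))
      refine ⟨-r, fun m => ?_⟩
      rcases lt_or_gt_of_ne (hex m) with h1 | h1
      · have := hr1 (s' m) (Finset.mem_image.2 ⟨m, by simp [h1], rfl⟩)
        rw [sign_neg (by linarith), sign_neg (by linarith)]
      · have := hr2 (s' m) (Finset.mem_image.2 ⟨m, by simp [h1], rfl⟩)
        rw [sign_pos (by linarith), sign_pos (by linarith)]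
  by_cases hh : h = 0
  · subst hh
    exact ⟨t, fun m => by simp⟩
  · obtain ⟨τ', hτ'⟩ := key (t / h)
    refine ⟨τ' * h, fun m => ?_⟩
    have e1 : τ' * h + s' m * h = h * (τ' + s' m) := by ring
    have e2 : t + s m * h = h * (t / h + s m) := by field_simp
    rw [e1, e2, sign_mul, sign_mul, hτ' m]

/-- enumerate a finite set increasingly with respect to an injective real function -/
theorem exists_enum {n q : ℕ} (C : Finset (Fin n)) (hC : C.card = q) (sl : Fin n → ℝ)
    (hinj : ∀ l ∈ C, ∀ l' ∈ C, sl l = sl l' → l = l') :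
    ∃ e : Fin q → Fin n, (∀ m, e m ∈ C) ∧ StrictMono (fun m => sl (e m)) := by
  classical
  have hcard : (C.image sl).card = q := by
    rw [Finset.card_image_of_injOn, hC]
    intro l hl l' hl' h
    exact hinj l hl l' hl' h
  have hex : ∀ m : Fin q, ∃ l ∈ C, sl l = (C.image sl).orderEmbOfFin hcard m := by
    intro m
    have := Finset.orderEmbOfFin_mem (C.image sl) hcard m
    rw [Finset.mem_image] at this
    exact this
  choose e he1 he2 using hex
  refine ⟨e, he1, ?_⟩
  intro a b hab
  simp only [he2]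
  exact ((C.image sl).orderEmbOfFin hcard).strictMono hab

namespace Arrangement

variable {d : ℕ} {A B : Arrangement d}

/-- normal form of the exceptional arrangements -/
def NF (A : Arrangement d) (q : ℕ) : Prop :=
  ∃ (e : (Fin q ⊕ Fin q) ⊕ Bool ≃ Fin A.n) (L0 L1 L2 L3 : (Fin (d + 1) → ℝ) →ₗ[ℝ] ℝ)
    (s s' : Fin q → ℝ) (η : Fin q ⊕ Fin q → SignType),
    (∀ r0 r1 r2 r3 : ℝ, ∃ x, L0 x = r0 ∧ L1 x = r1 ∧ L2 x = r2 ∧ L3 x = r3) ∧
    StrictMono s ∧ StrictMono s' ∧ (∀ m, η m * η m = 1) ∧
    (∀ x, SignType.sign (A.f (e (Sum.inr true)) x) = SignType.sign (L0 x)) ∧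
    (∀ x, SignType.sign (A.f (e (Sum.inr false)) x) = SignType.sign (L3 x)) ∧
    (∀ m x, SignType.sign (A.f (e (Sum.inl (Sum.inl m))) x) =
      η (Sum.inl m) * SignType.sign (L1 x + s m * L0 x)) ∧
    (∀ m x, SignType.sign (A.f (e (Sum.inl (Sum.inr m))) x) =
      η (Sum.inr m) * SignType.sign (L2 x + s' m * L0 x))

theorem NF.exists_rel {q : ℕ} (hA : A.NF q) (hB : B.NF q) :
    ∃ (σ : Fin A.n ≃ Fin B.n) (η : Fin A.n → SignType), (∀ i, η i * η i = 1) ∧
      (∀ x, ∃ v, Rel A B σ η x v) ∧ (∀ v, ∃ x, Rel A B σ η x v) := by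
  obtain ⟨e, L0, L1, L2, L3, s, s', η, hsur, hs, hs', hη, h0, h3, h1, h2⟩ := hA
  obtain ⟨e', M0, M1, M2, M3, t, t', η', hsur', ht, ht', hη', k0, k3, k1, k2⟩ := hB
  let ζ : (Fin q ⊕ Fin q) ⊕ Bool → SignType := Sum.elim (fun m => η m * η' m) (fun _ => 1)
  have hζ : ∀ p, ζ p * ζ p = 1 := by
    rintro (m | b)
    · have : ζ (Sum.inl m) = η m * η' m := rfl
      rw [this, mul_mul_mul_comm, hη, hη', one_mul]
    · rfl
  refine ⟨e.symm.trans e', fun i => ζ (e.symm i), fun i => hζ _, ?_, ?_⟩
  · intro x
    obtain ⟨r1, hr1⟩ := order_match hs ht (L0 x) (L1 x)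
    obtain ⟨r2, hr2⟩ := order_match hs' ht' (L0 x) (L2 x)
    obtain ⟨v, hv0, hv1, hv2, hv3⟩ := hsur' (L0 x) r1 r2 (L3 x)
    refine ⟨v, fun i => ?_⟩
    obtain ⟨p, rfl⟩ := e.surjective i
    rw [Equiv.trans_apply, Equiv.symm_apply_apply, signs_apply, signs_apply]
    simp only [Equiv.symm_apply_apply]
    rcases p with (m | m) | b
    · rw [k1, h1, hv0, hv1, hr1]
      change _ = (η (Sum.inl m) * η' (Sum.inl m)) * _
      rw [mul_comm (η (Sum.inl m)) (η' (Sum.inl m)), mul_assoc, ← mul_assoc (η (Sum.inl m)),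
        hη, one_mul]
    · rw [k2, h2, hv0, hv2, hr2]
      change _ = (η (Sum.inr m) * η' (Sum.inr m)) * _
      rw [mul_comm (η (Sum.inr m)) (η' (Sum.inr m)), mul_assoc, ← mul_assoc (η (Sum.inr m)),
        hη, one_mul]
    · change _ = 1 * _
      rw [one_mul]
      cases b
      · rw [k3, h3, hv3]
      · rw [k0, h0, hv0]
  · intro v
    obtain ⟨r1, hr1⟩ := order_match ht hs (M0 v) (M1 v)
    obtain ⟨r2, hr2⟩ := order_match ht' hs' (M0 v) (M2 v)
    obtain ⟨x, hx0, hx1, hx2, hx3⟩ := hsur (M0 v) r1 r2 (M3 v)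
    refine ⟨x, fun i => ?_⟩
    obtain ⟨p, rfl⟩ := e.surjective i
    rw [Equiv.trans_apply, Equiv.symm_apply_apply, signs_apply, signs_apply]
    simp only [Equiv.symm_apply_apply]
    rcases p with (m | m) | b
    · rw [k1, h1, hx0, hx1, hr1]
      change _ = (η (Sum.inl m) * η' (Sum.inl m)) * _
      rw [mul_comm (η (Sum.inl m)) (η' (Sum.inl m)), mul_assoc, ← mul_assoc (η (Sum.inl m)),
        hη, one_mul]
    · rw [k2, h2, hx0, hx2, hr2]
      change _ = (η (Sum.inr m) * η' (Sum.inr m)) * _
      rw [mul_comm (η (Sum.inr m)) (η' (Sum.inr m)), mul_assoc, ← mul_assoc (η (Sum.inr m)),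
        hη, one_mul]
    · change _ = 1 * _
      rw [one_mul]
      cases b
      · rw [k3, h3, hx3]
      · rw [k0, h0, hx0]

theorem nf_of_exceptional (hd : 3 ≤ d)
    (hex : ∃ i j j' : Fin A.n, j ≠ i ∧ j' ≠ i ∧ A.Big i j ∧ A.Big i j' ∧ j' ∉ A.cls i j) :
    ∃ q, A.n = 2 * q + 2 ∧ A.NF q := by
  classical
  obtain ⟨i, j, j', hji, hj'i, hB, hB', hnot⟩ := hex
  -- coefficients
  have hcoef : ∀ j, j ≠ i → ∀ l, ∃ α β : ℝ, l ∈ A.cls i j →
      A.f l = α • A.f i + β • A.f j ∧ β ≠ 0 := by
    intro j _ l
    by_cases hl : l ∈ A.cls i j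
    · obtain ⟨hli, α, β, h⟩ := mem_cls.1 hl
      refine ⟨α, β, fun _ => ⟨h, ?_⟩⟩
      rintro rfl
      apply hli
      apply A.f_parallel (c := α)
      rw [h, zero_smul, add_zero]
    · exact ⟨0, 0, fun h => absurd h hl⟩
  choose α β hαβ using hcoef j hji
  choose α' β' hαβ' using hcoef j' hj'i
  have hjC : j ∈ A.cls i j := mem_cls.2 ⟨hji, 0, 1, by simp⟩
  have hj'C : j' ∈ A.cls i j' := mem_cls.2 ⟨hj'i, 0, 1, by simp⟩
  have hdisj : Disjoint (A.cls i j) (A.cls i j') := by
    rw [Finset.disjoint_left]
    intro l hl hl'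
    obtain ⟨h1, h2⟩ := hαβ l hl
    obtain ⟨h3, h4⟩ := hαβ' l hl'
    apply hnot
    refine mem_cls.2 ⟨hj'i, (α l - α' l) / β' l, β l / β' l, ?_⟩
    refine LinearMap.ext fun x => ?_
    have h6 := LinearMap.congr_fun (h1.symm.trans h3) x
    simp only [LinearMap.add_apply, LinearMap.smul_apply, smul_eq_mul] at h6 ⊢
    field_simp
    linarith
  have hiC : i ∉ A.cls i j := fun h => (mem_cls.1 h).1 rfl
  have hiC' : i ∉ A.cls i j' := fun h => (mem_cls.1 h).1 rfl
  -- linear map to ℝ³ is not injective
  have hk : ∃ k, k ≠ i ∧ k ∉ A.cls i j ∧ k ∉ A.cls i j' := by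
    by_contra hcon
    push Not at hcon
    let Φ : (Fin (d + 1) → ℝ) →ₗ[ℝ] (Fin 3 → ℝ) := LinearMap.pi ![A.f i, A.f j, A.f j']
    have hinj : Function.Injective Φ := by
      rw [← LinearMap.ker_eq_bot, LinearMap.ker_eq_bot']
      intro x hx
      have e0 : A.f i x = 0 := congrFun hx 0
      have e1 : A.f j x = 0 := congrFun hx 1
      have e2 : A.f j' x = 0 := congrFun hx 2
      apply A.essential
      intro l
      by_cases hli : l = i
      · rw [hli, e0]
      · by_cases hlC : l ∈ A.cls i j
        · rw [(hαβ l hlC).1, LinearMap.add_apply, LinearMap.smul_apply, LinearMap.smul_apply,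
            e0, e1]; simp
        · rw [(hαβ' l (hcon l hli hlC)).1, LinearMap.add_apply, LinearMap.smul_apply,
            LinearMap.smul_apply, e0, e2]; simp
    have := LinearMap.finrank_le_finrank_of_injective hinj
    rw [Module.finrank_fin_fun, Module.finrank_fin_fun] at this
    omega
  obtain ⟨k, hki, hkC, hkC'⟩ := hk
  -- counting
  have hU : ({i, k} ∪ (A.cls i j ∪ A.cls i j') : Finset (Fin A.n)).card =
      2 + ((A.cls i j).card + (A.cls i j').card) := by
    rw [Finset.card_union_of_disjoint, Finset.card_union_of_disjoint hdisj,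
      Finset.card_pair (Ne.symm hki)]
    rw [Finset.disjoint_left]
    intro l hl
    rw [Finset.mem_insert, Finset.mem_singleton] at hl
    rw [Finset.mem_union]
    rcases hl with rfl | rfl <;> tauto
  have hle := Finset.card_le_univ ({i, k} ∪ (A.cls i j ∪ A.cls i j') : Finset (Fin A.n))
  rw [hU, Fintype.card_fin] at hle
  unfold Big at hB hB'
  obtain ⟨q, hq⟩ : ∃ q, q = (A.cls i j).card := ⟨_, rfl⟩
  have hq' : (A.cls i j').card = q := by omega
  have hn : A.n = 2 * q + 2 := by omega
  have huniv : ∀ l, l = i ∨ l = k ∨ l ∈ A.cls i j ∨ l ∈ A.cls i j' := by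
    intro l
    have : ({i, k} ∪ (A.cls i j ∪ A.cls i j') : Finset (Fin A.n)) = Finset.univ := by
      apply Finset.eq_univ_of_card
      rw [hU, Fintype.card_fin]
      omega
    have hl : l ∈ ({i, k} ∪ (A.cls i j ∪ A.cls i j') : Finset (Fin A.n)) := by
      rw [this]; exact Finset.mem_univ l
    rw [Finset.mem_union, Finset.mem_insert, Finset.mem_singleton, Finset.mem_union] at hl
    tauto
  -- the coordinate map is onto
  let Ψ : (Fin (d + 1) → ℝ) →ₗ[ℝ] (Fin 4 → ℝ) := LinearMap.pi ![A.f i, A.f j, A.f j', A.f k]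
  have hΨ0 : ∀ x, Ψ x 0 = A.f i x := fun _ => rfl
  have hΨ1 : ∀ x, Ψ x 1 = A.f j x := fun _ => rfl
  have hΨ2 : ∀ x, Ψ x 2 = A.f j' x := fun _ => rfl
  have hΨ3 : ∀ x, Ψ x 3 = A.f k x := fun _ => rfl
  have hinj : Function.Injective Ψ := by
    rw [← LinearMap.ker_eq_bot, LinearMap.ker_eq_bot']
    intro x hx
    have e0 : A.f i x = 0 := congrFun hx 0
    have e1 : A.f j x = 0 := congrFun hx 1
    have e2 : A.f j' x = 0 := congrFun hx 2
    have e3 : A.f k x = 0 := congrFun hx 3
    apply A.essential
    intro l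
    rcases huniv l with rfl | rfl | hl | hl
    · exact e0
    · exact e3
    · rw [(hαβ l hl).1, LinearMap.add_apply, LinearMap.smul_apply, LinearMap.smul_apply,
        e0, e1]; simp
    · rw [(hαβ' l hl).1, LinearMap.add_apply, LinearMap.smul_apply, LinearMap.smul_apply,
        e0, e2]; simp
  have hd3 : d = 3 := by
    have := LinearMap.finrank_le_finrank_of_injective hinj
    rw [Module.finrank_fin_fun, Module.finrank_fin_fun] at this
    omega
  have hsurj : Function.Surjective Ψ := by
    have hfr : Module.finrank ℝ (Fin (d + 1) → ℝ) = Module.finrank ℝ (Fin 4 → ℝ) := by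
      rw [Module.finrank_fin_fun, Module.finrank_fin_fun, hd3]
    exact (LinearMap.injective_iff_surjective_of_finrank_eq_finrank hfr).1 hinj
  -- slopes
  have hslope : ∀ l ∈ A.cls i j, ∀ l' ∈ A.cls i j, α l / β l = α l' / β l' → l = l' := by
    intro l hl l' hl' h
    obtain ⟨h1, h2⟩ := hαβ l hl
    obtain ⟨h3, h4⟩ := hαβ l' hl'
    apply A.f_parallel (c := β l / β l')
    rw [h1, h3, smul_add, smul_smul, smul_smul]
    congr 2
    · field_simp at h ⊢
      linarith
    · field_simp
  have hslope' : ∀ l ∈ A.cls i j', ∀ l' ∈ A.cls i j', α' l / β' l = α' l' / β' l' → l = l' := by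
    intro l hl l' hl' h
    obtain ⟨h1, h2⟩ := hαβ' l hl
    obtain ⟨h3, h4⟩ := hαβ' l' hl'
    apply A.f_parallel (c := β' l / β' l')
    rw [h1, h3, smul_add, smul_smul, smul_smul]
    congr 2
    · field_simp at h ⊢
      linarith
    · field_simp
  obtain ⟨e1, he1, hm1⟩ := exists_enum (A.cls i j) hq.symm (fun l => α l / β l) hslope
  obtain ⟨e2, he2, hm2⟩ := exists_enum (A.cls i j') hq' (fun l => α' l / β' l) hslope'
  have hinj1 : Function.Injective e1 := by
    intro a b hab
    apply hm1.injective
    simp only [hab]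
  have hinj2 : Function.Injective e2 := by
    intro a b hab
    apply hm2.injective
    simp only [hab]
  let e : (Fin q ⊕ Fin q) ⊕ Bool → Fin A.n :=
    Sum.elim (Sum.elim e1 e2) (fun b => if b then i else k)
  have heinj : Function.Injective e := by
    have hd1 : ∀ l, l ∈ A.cls i j → l ∈ A.cls i j' → False :=
      fun l h1 h2 => Finset.disjoint_left.1 hdisj h1 h2
    rintro ((a | a) | a) ((b | b) | b) hab
    · have : e1 a = e1 b := hab
      rw [hinj1 this]
    · have : e1 a = e2 b := hab
      exact absurd (he2 b) (fun h => hd1 _ (he1 a) (this ▸ h))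
    · have : e1 a = if b then i else k := hab
      have h1 := he1 a
      rw [this] at h1
      cases b
      · exact absurd h1 hkC
      · exact absurd h1 hiC
    · have : e2 a = e1 b := hab
      exact absurd (he2 a) (fun h => hd1 _ (he1 b) (this ▸ h))
    · have : e2 a = e2 b := hab
      rw [hinj2 this]
    · have : e2 a = if b then i else k := hab
      have h1 := he2 a
      rw [this] at h1
      cases b
      · exact absurd h1 hkC'
      · exact absurd h1 hiC'
    · have : (if a then i else k) = e1 b := hab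
      have h1 := he1 b
      rw [← this] at h1
      cases a
      · exact absurd h1 hkC
      · exact absurd h1 hiC
    · have : (if a then i else k) = e2 b := hab
      have h1 := he2 b
      rw [← this] at h1
      cases a
      · exact absurd h1 hkC'
      · exact absurd h1 hiC'
    · have : (if a then i else k) = (if b then i else k) := hab
      cases a <;> cases b
      · rfl
      · exact absurd this hki
      · exact absurd this.symm hki
      · rfl
  have hebij : Function.Bijective e := by
    rw [Fintype.bijective_iff_injective_and_card]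
    refine ⟨heinj, ?_⟩
    simp only [Fintype.card_sum, Fintype.card_fin, Fintype.card_bool]
    omega
  refine ⟨q, hn, Equiv.ofBijective e hebij, A.f i, A.f j, A.f j', A.f k,
    fun m => α (e1 m) / β (e1 m), fun m => α' (e2 m) / β' (e2 m),
    Sum.elim (fun m => SignType.sign (β (e1 m))) (fun m => SignType.sign (β' (e2 m))),
    ?_, hm1, hm2, ?_, ?_, ?_, ?_, ?_⟩
  · intro r0 r1 r2 r3
    obtain ⟨x, hx⟩ := hsurj ![r0, r1, r2, r3]
    exact ⟨x, congrFun hx 0, congrFun hx 1, congrFun hx 2, congrFun hx 3⟩
  · have hsq : ∀ r : ℝ, r ≠ 0 → SignType.sign r * SignType.sign r = 1 := by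
      intro r hr
      rw [← sign_mul, sign_eq_one_iff]
      exact mul_self_pos.mpr hr
    rintro (m | m)
    · exact hsq _ (hαβ _ (he1 m)).2
    · exact hsq _ (hαβ' _ (he2 m)).2
  · intro x; rfl
  · intro x; rfl
  · intro m x
    obtain ⟨h1, h2⟩ := hαβ _ (he1 m)
    change SignType.sign (A.f (e1 m) x) = SignType.sign (β (e1 m)) * _
    rw [← sign_mul, h1, LinearMap.add_apply, LinearMap.smul_apply, LinearMap.smul_apply]
    congr 1
    simp only [smul_eq_mul]
    field_simp
    ring
  · intro m x
    obtain ⟨h1, h2⟩ := hαβ' _ (he2 m)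
    change SignType.sign (A.f (e2 m) x) = SignType.sign (β' (e2 m)) * _
    rw [← sign_mul, h1, LinearMap.add_apply, LinearMap.smul_apply, LinearMap.smul_apply]
    congr 1
    simp only [smul_eq_mul]
    field_simp
    ring

/-- The reconstruction theorem. -/
theorem equivalent_of_cellGraph_iso (hd : 3 ≤ d) (A B : Arrangement d)
    (φ : A.cellGraph ≃g B.cellGraph) : Equivalent A B := by
  have hA : 3 ≤ A.n := by have := A.le_n; omega
  have hB : 3 ≤ B.n := by have := B.le_n; omega
  by_cases hexA : ∃ i j j' : Fin A.n, j ≠ i ∧ j' ≠ i ∧ A.Big i j ∧ A.Big i j' ∧ j' ∉ A.cls i j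
  · by_cases hexB : ∃ i j j' : Fin B.n, j ≠ i ∧ j' ≠ i ∧ B.Big i j ∧ B.Big i j' ∧ j' ∉ B.cls i j
    · obtain ⟨q, hq, hNA⟩ := nf_of_exceptional hd hexA
      obtain ⟨q', hq', hNB⟩ := nf_of_exceptional hd hexB
      have hcard := card_eq_of_iso (A.model hA) (B.model hB) φ
      rw [Fintype.card_fin, Fintype.card_fin] at hcard
      have : q = q' := by omega
      subst this
      obtain ⟨σ, η, hη, h1, h2⟩ := hNA.exists_rel hNB
      exact equiv_of_rel σ η hη h1 h2
    · push Not at hexB
      obtain ⟨ψ, hψ⟩ := equiv_of_iso_of_nonexceptional hB hA φ.symm hexB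
      refine ⟨ψ.symm, fun F G => ?_⟩
      rw [hψ (ψ.symm F) (ψ.symm G), Equiv.apply_symm_apply, Equiv.apply_symm_apply]
  · push Not at hexA
    exact equiv_of_iso_of_nonexceptional hA hB φ hexA

end Arrangement

/-- For every `d ≥ 3` and all `d`-arrangements `A` and `B`: if the cell-adjacency graphs of `A`
and `B` are isomorphic, then `A` and `B` are combinatorially equivalent. -/
theorem result : ∀ d : ℕ, 3 ≤ d → ∀ A B : Arrangement d,
    Nonempty (A.cellGraph ≃g B.cellGraph) → Arrangement.Equivalent A B := by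
  rintro d hd A B ⟨φ⟩
  exact Arrangement.equivalent_of_cellGraph_iso hd A B φ

end Pool.Agent.Results.MP_d06cab_co.CellGraph
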